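import Pool.Agent.W_156d3b_h46.Defs

namespace Sur46

open Nat

/-- PROOF. Let `i ∈ {1..d}` maximise `v_p(m+i)`.  For `j ≠ i` in `{1..d}`, `p^{v_p(m+j)}` divides both
`m+j` and `m+i`, hence `|i-j|`, which is between 1 and `d-1`, so it divides `(d-1)!`; thus
`v_p(m+j) ≤ v_p((d-1)!)`.  As `k! = ∏_{j=1}^d (m+j)`,
`v_p(k!) = v_p(m+i) + ∑_{j≠i} v_p(m+j) ≤ v_p(m+i) + (d-1) v_p((d-1)!) = v_p((m+i) ((d-1)!)^{d-1})`,
which gives the claim (use `Nat.Prime.pow_dvd_iff_le_factorization` or padicValNat lemmas).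
(`d ≥ 1` because `d = 0` would give `k! = 1` with `k ≥ 2`.) -/
theorem Sol.padic {k m d : ℕ} (h : Sol k m d) {p : ℕ} (hp : p.Prime) :
    ∃ i, 1 ≤ i ∧ i ≤ d ∧
      ∀ e, p ^ e ∣ k ! → p ^ e ∣ (m + i) * ((d - 1)!) ^ (d - 1) := by
  obtain ⟨hk, _, hf⟩ := h
  have hd : 1 ≤ d := by
    rcases Nat.eq_zero_or_pos d with h0 | h0
    · subst h0
      have h1 : k ! = 1 := by
        have h2 : m ! * k ! = m ! * 1 := by rw [← hf]; simp
        exact Nat.eq_of_mul_eq_mul_left (Nat.factorial_pos m) h2
      have h3 := Nat.self_le_factorial k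
      omega
    · exact h0
  have hkp : k ! = ∏ j ∈ Finset.range d, (m + 1 + j) := by
    rw [← Nat.ascFactorial_eq_prod_range]
    have h2 : m ! * (m + 1).ascFactorial d = m ! * k ! := by
      rw [Nat.factorial_mul_ascFactorial, hf]
    exact (Nat.eq_of_mul_eq_mul_left (Nat.factorial_pos m) h2).symm
  obtain ⟨i0, hi0, hmax⟩ := Finset.exists_max_image (Finset.range d)
    (fun j => (m + 1 + j).factorization p) ⟨0, Finset.mem_range.mpr hd⟩
  have hi0d : i0 < d := Finset.mem_range.mp hi0
  have hfne : (d - 1)! ≠ 0 := Nat.factorial_ne_zero _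
  have key : ∀ j ∈ (Finset.range d).erase i0,
      (m + 1 + j).factorization p ≤ ((d - 1)!).factorization p := by
    intro j hj
    obtain ⟨hne, hjr⟩ := Finset.mem_erase.mp hj
    have hjd : j < d := Finset.mem_range.mp hjr
    have h1 : p ^ ((m + 1 + j).factorization p) ∣ m + 1 + j := Nat.ordProj_dvd _ _
    have h2 : p ^ ((m + 1 + j).factorization p) ∣ m + 1 + i0 :=
      (pow_dvd_pow p (hmax j hjr)).trans (Nat.ordProj_dvd _ _)
    have h3 : p ^ ((m + 1 + j).factorization p) ∣ (d - 1)! := by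
      rcases Nat.lt_or_gt_of_ne hne with hlt | hgt
      · have h4 := Nat.dvd_sub h2 h1
        have h5 : m + 1 + i0 - (m + 1 + j) = i0 - j := by omega
        rw [h5] at h4
        exact h4.trans (Nat.dvd_factorial (by omega) (by omega))
      · have h4 := Nat.dvd_sub h1 h2
        have h5 : m + 1 + j - (m + 1 + i0) = j - i0 := by omega
        rw [h5] at h4
        exact h4.trans (Nat.dvd_factorial (by omega) (by omega))
    exact (hp.pow_dvd_iff_le_factorization hfne).mp h3
  have hv : (k !).factorization p ≤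
      ((m + 1 + i0) * ((d - 1)!) ^ (d - 1)).factorization p := by
    rw [Nat.factorization_mul (by omega) (pow_ne_zero _ hfne), Nat.factorization_pow]
    have h1 : (k !).factorization p = ∑ j ∈ Finset.range d, (m + 1 + j).factorization p := by
      rw [hkp, Nat.factorization_prod_apply]
      intro x _
      omega
    rw [h1, ← Finset.add_sum_erase _ _ hi0]
    have h2 : ∑ j ∈ (Finset.range d).erase i0, (m + 1 + j).factorization p
        ≤ (d - 1) * ((d - 1)!).factorization p := by
      have h3 := Finset.sum_le_card_nsmul _ _ _ key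
      rw [Finset.card_erase_of_mem hi0, Finset.card_range] at h3
      simpa [smul_eq_mul] using h3
    simp only [Finsupp.coe_add, Finsupp.coe_smul, Pi.add_apply, Pi.smul_apply, smul_eq_mul]
    exact Nat.add_le_add_left h2 _
  refine ⟨i0 + 1, by omega, by omega, ?_⟩
  intro e he
  have h5 : m + (i0 + 1) = m + 1 + i0 := by omega
  rw [h5]
  have hne : (m + 1 + i0) * ((d - 1)!) ^ (d - 1) ≠ 0 :=
    mul_ne_zero (by omega) (pow_ne_zero _ hfne)
  rw [hp.pow_dvd_iff_le_factorization hne]
  exact ((hp.pow_dvd_iff_le_factorization (Nat.factorial_ne_zero k)).mp he).trans hv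

end Sur46
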