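import Pool.Agent.W_156d3b_h46.Defs

namespace Sur46

open Nat

/-- `(m+1)^d ≤ (m+1)...(m+d) = k!`.  Use `Nat.factorial_mul_ascFactorial` and
`Nat.pow_succ_le_ascFactorial` (or `Nat.factorial_mul_pow_le_factorial`). -/
theorem Sol.pow_le {k m d : ℕ} (h : Sol k m d) : (m + 1) ^ d ≤ k ! := by
  have h1 : m ! * (m + 1) ^ d ≤ (m + d)! := Nat.factorial_mul_pow_le_factorial
  rw [h.2.2] at h1
  exact Nat.le_of_mul_le_mul_left h1 (Nat.factorial_pos m)

/-- `k! = (m+1)...(m+d) ≤ (m+d)^d`. Use `Nat.ascFactorial_le_pow_add` or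
`Nat.factorial_le_factorial_mul_pow`-like lemmas. -/
theorem Sol.le_pow {k m d : ℕ} (h : Sol k m d) : k ! ≤ (m + d) ^ d := by
  have h1 : m ! * (m + 1).ascFactorial d = (m + d)! := Nat.factorial_mul_ascFactorial m d
  rw [h.2.2] at h1
  have h2 : (m + 1).ascFactorial d = k ! := Nat.eq_of_mul_eq_mul_left (Nat.factorial_pos m) h1
  rw [← h2]
  exact Nat.ascFactorial_le_pow_add m d

/-- `d = 0` would give `k! = 1`; `d ≥ k` would give `k! ≥ (m+1)^k > k^k ≥ k!`. -/
theorem Sol.d_pos_lt {k m d : ℕ} (h : Sol k m d) : 1 ≤ d ∧ d < k := by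
  constructor
  · rcases Nat.eq_zero_or_pos d with hd | hd
    · exfalso
      subst hd
      have h1 := h.le_pow
      rw [pow_zero] at h1
      have h2 : 2 ! ≤ k ! := Nat.factorial_le h.1
      have h3 : 2 ! = 2 := rfl
      omega
    · exact hd
  · by_contra hc
    rw [not_lt] at hc
    have h1 := h.pow_le
    have h2 : (m + 1) ^ k ≤ (m + 1) ^ d := Nat.pow_le_pow_right (by omega) hc
    have h3 : k ! ≤ k ^ k := Nat.factorial_le_pow k
    have h4 : k ^ k < (m + 1) ^ k :=
      Nat.pow_lt_pow_left (by have := h.2.1; omega) (by have := h.1; omega)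
    omega

end Sur46
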