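import Pool.Agent.W_156d3b_h46.Defs

namespace Sur46

open Nat

/-- PROOF.  It suffices (`Nat.dvd_iff_prime_pow_dvd_dvd` applied to `natAbs`) that every prime power `p^e`
dividing `(y!)^q` divides the right side. If `e = 0` trivial; otherwise `p ∣ y!`, so `p ≤ y`.
`(y!)^q ∣ (q*y)!` (`Nat.prod_factorial_dvd_factorial_sum`, constant function on `range q`) and
`(q*y)! ∣ K! ∣ k!` for `k ∈ T`.  So `p^e ∣ k!`, hence `p^e ∣ (m k + i p k) * ((d k - 1)!)^(d k - 1)`, and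
this divides `(m k + i p k) * (D!)^D` (`(d-1)! ∣ D!`, exponents `d k - 1 ≤ D`).  Now
`(D!)^D * ∑ m_k u_k = ∑ u_k (D!)^D (m_k + i_p(k)) - (D!)^D * ∑ i_p(k) u_k` and the last sum is zero. -/
theorem dvd_comb {K y q D : ℕ} (T : Finset ℕ) (m d : ℕ → ℕ) (i : ℕ → ℕ → ℕ) (u : ℕ → ℤ)
    (hK : ∀ k ∈ T, K ≤ k) (hD : ∀ k ∈ T, d k ≤ D) (hq : q * y ≤ K)
    (hi : ∀ p, p.Prime → ∀ k ∈ T, ∀ e, p ^ e ∣ k ! →
      p ^ e ∣ (m k + i p k) * ((d k - 1)!) ^ (d k - 1))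
    (hu : ∀ p, p.Prime → p ≤ y → ∑ k ∈ T, (i p k : ℤ) * u k = 0) :
    (((y !) ^ q : ℕ) : ℤ) ∣ (((D !) ^ D : ℕ) : ℤ) * ∑ k ∈ T, (m k : ℤ) * u k := by
  rw [Int.natCast_dvd, Nat.dvd_iff_prime_pow_dvd_dvd]
  intro p e hp hpe
  rw [← Int.natCast_dvd]
  rcases Nat.eq_zero_or_pos e with rfl | he
  · simp
  have hpy : p ≤ y := by
    have h1 : p ∣ (y !) ^ q := (dvd_pow_self p he.ne').trans hpe
    exact (hp.dvd_factorial).1 (hp.dvd_of_dvd_pow h1)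
  have hfac : (y !) ^ q ∣ (q * y)! := by
    have h1 := Nat.prod_factorial_dvd_factorial_sum (Finset.range q) (fun _ => y)
    simpa using h1
  have hsum : (((D !) ^ D : ℕ) : ℤ) * ∑ k ∈ T, (m k : ℤ) * u k =
      ∑ k ∈ T, (((m k + i p k) * (D !) ^ D : ℕ) : ℤ) * u k := by
    have h1 := hu p hp hpy
    calc (((D !) ^ D : ℕ) : ℤ) * ∑ k ∈ T, (m k : ℤ) * u k
        = (((D !) ^ D : ℕ) : ℤ) * (∑ k ∈ T, (m k : ℤ) * u k + ∑ k ∈ T, (i p k : ℤ) * u k) := by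
          rw [h1, add_zero]
      _ = _ := by
          rw [← Finset.sum_add_distrib, Finset.mul_sum]
          refine Finset.sum_congr rfl fun k _ => ?_
          push_cast
          ring
  rw [hsum]
  refine Finset.dvd_sum fun k hk => Dvd.dvd.mul_right ?_ _
  rw [Int.natCast_dvd_natCast]
  have h1 : p ^ e ∣ k ! :=
    (hpe.trans hfac).trans (Nat.factorial_dvd_factorial (hq.trans (hK k hk)))
  refine (hi p hp k hk e h1).trans (mul_dvd_mul_left _ ?_)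
  have h2 : d k - 1 ≤ D := (Nat.sub_le _ _).trans (hD k hk)
  exact (pow_dvd_pow_of_dvd (Nat.factorial_dvd_factorial h2) _).trans (pow_dvd_pow _ h2)

end Sur46
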