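import Pool.Agent.W_156d3b_h46.Defs

namespace Sur46

open Nat

/-- PROOF. Let `k₀` maximise `m` among the `k ∈ T` with `u k ≠ 0`. For the other `k ∈ T` with `u k ≠ 0`
we have `G * m k < m k₀` (`G * m k₀ < m k ≤ m k₀` is impossible unless `G = 0`, and `G = 0` forces
`N * B = 0`, i.e. `T = ∅` or `u = 0` on `T`, against `hne`).  So `N * (B * m k) ≤ G * m k < m k₀` and the sum
of the at most `N - 1` other terms is in absolute value `< m k₀ ≤ |u k₀ * m k₀|`. -/
theorem comb_ne_zero {G N B : ℕ} (T : Finset ℕ) (m : ℕ → ℕ) (u : ℕ → ℤ)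
    (hT : T.card ≤ N) (hG : N * B ≤ G)
    (hlac : ∀ k ∈ T, ∀ k' ∈ T, k ≠ k' → G * m k < m k' ∨ G * m k' < m k)
    (hm : ∀ k ∈ T, 0 < m k)
    (hu : ∀ k ∈ T, |u k| ≤ B) (hne : ∃ k ∈ T, u k ≠ 0) :
    ∑ k ∈ T, (m k : ℤ) * u k ≠ 0 := by
  classical
  obtain ⟨k₁, hk₁T, hk₁⟩ := hne
  have hN : 0 < N := lt_of_lt_of_le (Finset.card_pos.2 ⟨k₁, hk₁T⟩) hT
  have hB : 0 < B := by
    have h1 : (0 : ℤ) < |u k₁| := abs_pos.2 hk₁
    have h2 := hu k₁ hk₁T
    have h3 : (0 : ℤ) < B := lt_of_lt_of_le h1 h2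
    exact_mod_cast h3
  have hG0 : 0 < G := lt_of_lt_of_le (Nat.mul_pos hN hB) hG
  -- the support
  set T' := T.filter (fun k => u k ≠ 0) with hT'
  have hT'ne : T'.Nonempty := ⟨k₁, Finset.mem_filter.2 ⟨hk₁T, hk₁⟩⟩
  obtain ⟨k₀, hk₀, hmax⟩ := T'.exists_max_image m hT'ne
  obtain ⟨hk₀T, hk₀u⟩ := Finset.mem_filter.1 hk₀
  have hsum : ∑ k ∈ T, (m k : ℤ) * u k = ∑ k ∈ T', (m k : ℤ) * u k := by
    symm
    refine Finset.sum_subset (Finset.filter_subset _ _) ?_
    intro k hk hk'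
    have : u k = 0 := by
      by_contra h
      exact hk' (Finset.mem_filter.2 ⟨hk, h⟩)
    rw [this, mul_zero]
  rw [hsum, ← Finset.add_sum_erase T' _ hk₀]
  have hm₀ : (0 : ℤ) < m k₀ := by exact_mod_cast hm k₀ hk₀T
  -- the other terms are small
  have hsmall : ∀ k ∈ T'.erase k₀, (N : ℤ) * |(m k : ℤ) * u k| ≤ m k₀ - 1 := by
    intro k hk
    obtain ⟨hne, hkT'⟩ := Finset.mem_erase.1 hk
    obtain ⟨hkT, _⟩ := Finset.mem_filter.1 hkT'
    have hlt : G * m k < m k₀ := by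
      rcases hlac k hkT k₀ hk₀T hne with h | h
      · exact h
      · exfalso
        have h1 : m k ≤ m k₀ := hmax k hkT'
        have h2 : m k₀ ≤ G * m k₀ := Nat.le_mul_of_pos_left _ hG0
        omega
    have hlt' : (G : ℤ) * m k + 1 ≤ m k₀ := by exact_mod_cast hlt
    have hG' : (N : ℤ) * B ≤ G := by exact_mod_cast hG
    have hmk : (0 : ℤ) ≤ m k := Int.natCast_nonneg _
    rw [abs_mul, abs_of_nonneg hmk]
    calc (N : ℤ) * ((m k : ℤ) * |u k|) ≤ N * ((m k : ℤ) * B) := by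
          refine mul_le_mul_of_nonneg_left ?_ (Int.natCast_nonneg _)
          exact mul_le_mul_of_nonneg_left (hu k hkT) hmk
      _ = (N : ℤ) * B * m k := by ring
      _ ≤ G * m k := mul_le_mul_of_nonneg_right hG' hmk
      _ ≤ m k₀ - 1 := by linarith
  have hcard : ((T'.erase k₀).card : ℤ) ≤ N := by
    have h1 : (T'.erase k₀).card ≤ T.card :=
      le_trans (Finset.card_le_card (Finset.erase_subset _ _))
        (Finset.card_le_card (Finset.filter_subset _ _))
    exact_mod_cast le_trans h1 hT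
  have hrest : (N : ℤ) * |∑ k ∈ T'.erase k₀, (m k : ℤ) * u k| ≤ N * (m k₀ - 1) := by
    calc (N : ℤ) * |∑ k ∈ T'.erase k₀, (m k : ℤ) * u k|
        ≤ N * ∑ k ∈ T'.erase k₀, |(m k : ℤ) * u k| :=
          mul_le_mul_of_nonneg_left (Finset.abs_sum_le_sum_abs _ _) (Int.natCast_nonneg _)
      _ = ∑ k ∈ T'.erase k₀, (N : ℤ) * |(m k : ℤ) * u k| := by rw [Finset.mul_sum]
      _ ≤ ∑ k ∈ T'.erase k₀, ((m k₀ : ℤ) - 1) := Finset.sum_le_sum hsmall
      _ = ((T'.erase k₀).card : ℤ) * (m k₀ - 1) := by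
          rw [Finset.sum_const, nsmul_eq_mul]
      _ ≤ N * (m k₀ - 1) := mul_le_mul_of_nonneg_right hcard (by linarith)
  have hNz : (0 : ℤ) < N := by exact_mod_cast hN
  have hrest' : |∑ k ∈ T'.erase k₀, (m k : ℤ) * u k| ≤ m k₀ - 1 :=
    le_of_mul_le_mul_left hrest hNz
  have hmain : (m k₀ : ℤ) ≤ |(m k₀ : ℤ) * u k₀| := by
    rw [abs_mul, abs_of_pos hm₀]
    have : (1 : ℤ) ≤ |u k₀| := Int.one_le_abs hk₀u
    nlinarith
  intro h0
  have h1 : (m k₀ : ℤ) * u k₀ = -∑ k ∈ T'.erase k₀, (m k : ℤ) * u k := by linarith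
  rw [h1, abs_neg] at hmain
  linarith

/-- PROOF. Put `g k = Nat.log G (m k)`, so `G^(g k) ≤ m k < G^(g k + 1)`. One of the two parity classes
`{k ∈ S | g k % 2 = ε}` has at least `|S| / 2` elements; call it `S'`.  By `Finset.card_le_mul_card_image`,
`|S'| ≤ F * |image g S'|`.  Choose `T ⊆ S'` with `g` injective on `T` and `image g T = image g S'`
(`Finset.exists_subset_injOn_image_eq` or choice).  Two different elements of `T` have `g`-values which
differ by at least 2, say `g k + 2 ≤ g k'`, so `G * m k < G^(g k + 2) ≤ m k'`. -/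
theorem exists_lacunary {G F : ℕ} (hG : 2 ≤ G) (S : Finset ℕ) (m : ℕ → ℕ)
    (hm : ∀ k ∈ S, 0 < m k)
    (hF : ∀ v, (S.filter (fun k => Nat.log G (m k) = v)).card ≤ F) :
    ∃ T ⊆ S, (∀ k ∈ T, ∀ k' ∈ T, k ≠ k' → G * m k < m k' ∨ G * m k' < m k) ∧
      S.card ≤ 2 * F * T.card := by
  classical
  set g : ℕ → ℕ := fun k => Nat.log G (m k) with hg
  -- a parity class
  obtain ⟨e, he⟩ : ∃ e : ℕ, S.card ≤ 2 * (S.filter (fun k => g k % 2 = e)).card := by
    by_contra hcon
    push Not at hcon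
    have h0 := hcon 0
    have h1 := hcon 1
    have h2 : (S.filter (fun k => g k % 2 = 0)).card + (S.filter (fun k => ¬ g k % 2 = 0)).card
        = S.card := Finset.card_filter_add_card_filter_not _
    have h3 : S.filter (fun k => ¬ g k % 2 = 0) = S.filter (fun k => g k % 2 = 1) := by
      refine Finset.filter_congr fun k _ => ?_
      omega
    rw [h3] at h2
    omega
  set S' := S.filter (fun k => g k % 2 = e) with hS'
  have hsub : S' ⊆ S := Finset.filter_subset _ _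
  have hcard : S'.card ≤ F * (S'.image g).card := by
    refine Finset.card_le_mul_card_image S' F fun v _ => ?_
    refine le_trans (Finset.card_le_card ?_) (hF v)
    intro k hk
    rw [Finset.mem_filter] at hk ⊢
    exact ⟨hsub hk.1, hk.2⟩
  -- representatives
  have hrep : ∀ v, ∃ k, v ∈ S'.image g → k ∈ S' ∧ g k = v := by
    intro v
    by_cases hv : v ∈ S'.image g
    · obtain ⟨k, hk, hkv⟩ := Finset.mem_image.1 hv
      exact ⟨k, fun _ => ⟨hk, hkv⟩⟩
    · exact ⟨0, fun h => absurd h hv⟩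
  choose c hc using hrep
  have hT : ((S'.image g).image c).card = (S'.image g).card := by
    refine Finset.card_image_of_injOn ?_
    intro v hv w hw hvw
    have hvw' : c v = c w := hvw
    rw [← (hc v hv).2, ← (hc w hw).2, hvw']
  refine ⟨(S'.image g).image c, ?_, ?_, ?_⟩
  · intro k hk
    obtain ⟨v, hv, rfl⟩ := Finset.mem_image.1 hk
    exact hsub (hc v hv).1
  · intro k hk k' hk' hne
    obtain ⟨v, hv, rfl⟩ := Finset.mem_image.1 hk
    obtain ⟨w, hw, rfl⟩ := Finset.mem_image.1 hk'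
    obtain ⟨h1, h2⟩ := hc v hv
    obtain ⟨h3, h4⟩ := hc w hw
    have hvw : v ≠ w := by
      rintro rfl
      exact hne rfl
    have hp1 : g (c v) % 2 = e := (Finset.mem_filter.1 h1).2
    have hp2 : g (c w) % 2 = e := (Finset.mem_filter.1 h3).2
    have key : ∀ a b : ℕ, a ∈ S → b ∈ S → g a + 2 ≤ g b → G * m a < m b := by
      intro a b ha hb hab
      have h5 : m a < G ^ (g a + 1) := Nat.lt_pow_succ_log_self (by omega) (m a)
      have h6 : G ^ (g b) ≤ m b := Nat.pow_log_le_self G (hm b hb).ne'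
      calc G * m a < G * G ^ (g a + 1) := Nat.mul_lt_mul_of_pos_left h5 (by omega)
        _ = G ^ (g a + 2) := by rw [pow_succ' G (g a + 1)]
        _ ≤ G ^ (g b) := Nat.pow_le_pow_right (by omega) hab
        _ ≤ m b := h6
    rw [h2] at hp1
    rw [h4] at hp2
    rcases lt_or_gt_of_ne hvw with h | h
    · left
      exact key _ _ (hsub h1) (hsub h3) (by rw [h2, h4]; omega)
    · right
      exact key _ _ (hsub h3) (hsub h1) (by rw [h2, h4]; omega)
  · calc S.card ≤ 2 * S'.card := he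
      _ ≤ 2 * (F * (S'.image g).card) := Nat.mul_le_mul_left 2 hcard
      _ = 2 * F * ((S'.image g).image c).card := by rw [hT, mul_assoc]

end Sur46
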