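import Pool.Agent.W_156d3b_h46.Defs

namespace Sur46

open Nat

attribute [local instance] Matrix.seminormedAddCommGroup

/-- Siegel's lemma with `2 |P|` unknowns and `|P|` equations, from Mathlib's
`Int.Matrix.exists_ne_zero_int_vec_norm_le` (the exponent is `m / (n - m) = 1`).
Use the matrix `A : Matrix P T ℤ`, `A p k = c p k`, and extend the vector `t : T → ℤ` by zero. The norm of
a matrix / vector is the sup norm (`Matrix.seminormedAddCommGroup`, `pi_norm_le_iff`, ...). -/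
theorem siegel (P T : Finset ℕ) (hP : 0 < P.card) (hT : T.card = 2 * P.card)
    (c : ℕ → ℕ → ℤ) (D : ℕ) (hD : 1 ≤ D) (hc : ∀ p ∈ P, ∀ k ∈ T, |c p k| ≤ D) :
    ∃ u : ℕ → ℤ, (∃ k ∈ T, u k ≠ 0) ∧ (∀ p ∈ P, ∑ k ∈ T, c p k * u k = 0) ∧
      ∀ k ∈ T, |u k| ≤ T.card * D := by
  classical
  let A : Matrix P T ℤ := fun p k => c p.1 k.1
  have hcP : Fintype.card P = P.card := Fintype.card_coe P
  have hcT : Fintype.card T = T.card := Fintype.card_coe T
  obtain ⟨t, ht0, htA, htn⟩ := Int.Matrix.exists_ne_zero_int_vec_norm_le A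
    (by rw [hcP, hcT, hT]; omega) (by rw [hcP]; exact hP)
  have hPpos : (0 : ℝ) < P.card := by exact_mod_cast hP
  have he : ((Fintype.card P : ℝ) / ((Fintype.card T : ℝ) - (Fintype.card P : ℝ))) = 1 := by
    rw [hcP, hcT, hT]
    push_cast
    rw [div_eq_one_iff_eq (by linarith)]
    ring
  rw [he, Real.rpow_one, hcT] at htn
  have hA : max 1 ‖A‖ ≤ (D : ℝ) := by
    refine max_le (by exact_mod_cast hD) ((Matrix.norm_le_iff (by positivity)).2 fun p k => ?_)
    rw [Int.norm_eq_abs]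
    exact_mod_cast hc p.1 p.2 k.1 k.2
  refine ⟨fun k => if h : k ∈ T then t ⟨k, h⟩ else 0, ?_, ?_, ?_⟩
  · by_contra hcon
    refine ht0 (funext fun k => ?_)
    by_contra hk
    refine hcon ⟨k.1, k.2, ?_⟩
    beta_reduce
    rw [dif_pos k.2]
    exact hk
  · intro p hp
    have h1 := congrFun htA ⟨p, hp⟩
    have h2 : ∑ k ∈ T, c p k * (if h : k ∈ T then t ⟨k, h⟩ else 0) = ∑ k : T, c p k.1 * t k := by
      rw [← Finset.sum_coe_sort T (fun k => c p k * (if h : k ∈ T then t ⟨k, h⟩ else 0))]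
      refine Finset.sum_congr rfl fun k _ => ?_
      rw [dif_pos k.2]
    rw [h2]
    exact h1
  · intro k hk
    beta_reduce
    rw [dif_pos hk]
    have h3 : ‖t ⟨k, hk⟩‖ ≤ ‖t‖ := norm_le_pi_norm t ⟨k, hk⟩
    rw [Int.norm_eq_abs] at h3
    have h4 : (|(t ⟨k, hk⟩ : ℤ)| : ℝ) ≤ T.card * D :=
      (h3.trans htn).trans (mul_le_mul_of_nonneg_left hA (by positivity))
    exact_mod_cast h4

end Sur46
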