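import Pool.Agent.W_156d3b_h46.Defs

namespace Sur46

open Nat

theorem SizeIneq_asy (r : ℝ) (hr : 0 ≤ r) : ∀ᶠ u : ℝ in Filter.atTop,
    9 * √u * (Real.log u + 2 * r) + r * (729 * Real.log u ^ 6 + 3 * Real.log u) < u / 4 := by
  have h1 : (fun u : ℝ => Real.log u) =o[Filter.atTop] (fun u => √u) := by
    have h := isLittleO_log_rpow_atTop (r := 1 / 2) (by norm_num)
    simpa only [Real.sqrt_eq_rpow] using h
  have h2 : (fun u : ℝ => √u * Real.log u) =o[Filter.atTop] (fun u => √u * √u) :=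
    (Asymptotics.isBigO_refl _ _).mul_isLittleO h1
  have h3 : (fun u : ℝ => Real.log u ^ 6) =o[Filter.atTop] id := Real.isLittleO_pow_log_id_atTop
  have e1 : (0 : ℝ) < 1 / (80 * (1 + 2 * r)) := by positivity
  have e2 : (0 : ℝ) < 1 / (8000 * (1 + r)) := by positivity
  filter_upwards [h2.def e1, h3.def e2, Filter.eventually_ge_atTop (Real.exp 1)] with u h4 h5 h6
  have hu : 0 < u := (Real.exp_pos 1).trans_le h6
  have hL : 1 ≤ Real.log u := by
    rw [Real.le_log_iff_exp_le hu]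
    exact h6
  have hs : 0 ≤ √u := Real.sqrt_nonneg u
  rw [Real.mul_self_sqrt hu.le, Real.norm_of_nonneg (mul_nonneg hs (by linarith)),
    Real.norm_of_nonneg hu.le] at h4
  rw [Real.norm_of_nonneg (by positivity), id, Real.norm_of_nonneg hu.le] at h5
  have h7 : 80 * ((1 + 2 * r) * (√u * Real.log u)) ≤ u := by
    have h8 : (80 * (1 + 2 * r)) * (√u * Real.log u) ≤
        (80 * (1 + 2 * r)) * (1 / (80 * (1 + 2 * r)) * u) :=
      mul_le_mul_of_nonneg_left h4 (by positivity)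
    have h9 : (80 * (1 + 2 * r)) * (1 / (80 * (1 + 2 * r)) * u) = u := by
      field_simp
    rw [h9] at h8
    linarith
  have h8 : 8000 * ((1 + r) * Real.log u ^ 6) ≤ u := by
    have h8 : (8000 * (1 + r)) * Real.log u ^ 6 ≤
        (8000 * (1 + r)) * (1 / (8000 * (1 + r)) * u) :=
      mul_le_mul_of_nonneg_left h5 (by positivity)
    have h9 : (8000 * (1 + r)) * (1 / (8000 * (1 + r)) * u) = u := by
      field_simp
    rw [h9] at h8
    linarith
  have h9 : 9 * √u * (Real.log u + 2 * r) ≤ 9 * ((1 + 2 * r) * (√u * Real.log u)) := by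
    have h10 : √u * (2 * r) ≤ √u * (2 * r) * Real.log u :=
      le_mul_of_one_le_right (by positivity) hL
    nlinarith
  have h10 : Real.log u ≤ Real.log u ^ 6 := le_self_pow₀ hL (by norm_num)
  have h11 : 0 ≤ Real.log u ^ 6 := by positivity
  have h12 : r * (729 * Real.log u ^ 6 + 3 * Real.log u) ≤ 732 * ((1 + r) * Real.log u ^ 6) := by
    have h13 : r * Real.log u ≤ r * Real.log u ^ 6 := mul_le_mul_of_nonneg_left h10 hr
    nlinarith
  linarith

theorem SizeIneq_log_fact (n : ℕ) (hn : 1 ≤ n) : (n : ℝ) * (Real.log n - 1) ≤ Real.log (n ! : ℝ) := by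
  have hn0 : (0 : ℝ) < n := by exact_mod_cast hn
  have h1 := Real.pow_div_factorial_le_exp (n : ℝ) hn0.le n
  have h2 : (0 : ℝ) < (n ! : ℝ) := by exact_mod_cast Nat.factorial_pos n
  have h3 : Real.log ((n : ℝ) ^ n / (n ! : ℝ)) ≤ n := by
    have h4 := Real.log_le_log (by positivity) h1
    rwa [Real.log_exp] at h4
  rw [Real.log_div (by positivity) h2.ne', Real.log_pow] at h3
  linarith

theorem SizeIneq_fact_le (n : ℕ) {c : ℝ} (hn : 1 ≤ n) (h : Real.log n ≤ c) :
    Real.log (n ! : ℝ) ≤ n * c := by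
  have hn0 : (0 : ℝ) < n := by exact_mod_cast hn
  have h1 : (n ! : ℝ) ≤ (n : ℝ) ^ n := by exact_mod_cast Nat.factorial_le_pow n
  have h2 : (0 : ℝ) < (n ! : ℝ) := by exact_mod_cast Nat.factorial_pos n
  refine (Real.log_le_log h2 h1).trans ?_
  rw [Real.log_pow]
  exact mul_le_mul_of_nonneg_left h hn0.le

/-- PROOF. Write `y = Y r X ≥ 8 (4X)^{1/r} ≥ 8 K^{1/r}`, `D = DD X`, `w = W X ≤ X / log (4X)`.
`log (y!) ≥ y (log y - 1)` (from `Real.pow_div_factorial_le_exp` with `x = n = y`) and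
`y * (K / y) ≥ K - y` give `log RHS ≥ (K - y)(log y - 1) ≥ (K - y)((log K)/r + log 8 - 1)`, so
`r log RHS ≥ K log K + r (log 8 - 1) K - y (log K + 3 r)`, and `r (log 8 - 1) ≥ 2 * 1.07`.
`r log LHS ≤ log (k!) + r (D^2 log D + log (4 y^2 D))` and, as `k ≤ K + w ≤ 4 X`,
`log (k!) ≤ log (K!) + w log (4X) ≤ K log K + X ≤ K log K + K`.
So it is enough that `1.14 K > y (log K + 3 r) + r (D^2 log D + log (4 y^2 D))`, true for large `X`
since `y = O(√X)`, `D = O(log^2 X)`, `X ≤ K ≤ 3X`. -/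
theorem size_ineq (r : ℕ) (hr : 2 ≤ r) : ∃ X0 : ℕ, ∀ X ≥ X0, ∀ K, X ≤ K → K ≤ 3 * X →
    ∀ k ≤ K + W X, ∀ m : ℕ, m ^ r ≤ k ! →
      (DD X)! ^ (DD X) * ((2 * Y r X) ^ 2 * DD X) * m < (Y r X)! ^ (K / Y r X) := by
  have hrR : (2 : ℝ) ≤ (r : ℝ) := by exact_mod_cast hr
  obtain ⟨U, hU⟩ := Filter.eventually_atTop.1 (SizeIneq_asy (r : ℝ) (by linarith))
  refine ⟨max 1 ⌈U⌉₊, ?_⟩
  intro X hX K hXK hK3 k hk m hm
  have hX1 : 1 ≤ X := (le_max_left _ _).trans hX
  have hX1R : (1 : ℝ) ≤ (X : ℝ) := by exact_mod_cast hX1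
  have hUX : U ≤ 4 * (X : ℝ) := by
    have h1 : (⌈U⌉₊ : ℝ) ≤ X := by exact_mod_cast (le_max_right _ _).trans hX
    have h2 := Nat.le_ceil U
    linarith
  have hmain := hU _ hUX
  have h4 : (4 : ℝ) * (X : ℝ) / 4 = X := by ring
  rw [h4] at hmain
  set u : ℝ := 4 * (X : ℝ) with hu
  set L : ℝ := Real.log u with hL
  have hu4 : 4 ≤ u := by rw [hu]; linarith
  have hu0 : 0 < u := by linarith
  have hl2 := Real.log_two_gt_d9
  have hl2' := Real.log_two_lt_d9
  have hL1 : 1 ≤ L := by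
    have h1 : Real.log 4 ≤ L := Real.log_le_log (by norm_num) hu4
    have h2 : Real.log 4 = 2 * Real.log 2 := by
      rw [show (4 : ℝ) = 2 ^ 2 by norm_num, Real.log_pow]
      norm_num
    linarith
  -- the rest is trivial for m = 0
  have hRpos : 0 < (Y r X)! ^ (K / Y r X) := pow_pos (Nat.factorial_pos _) _
  rcases Nat.eq_zero_or_pos m with hm0 | hm0
  · rw [hm0, mul_zero]
    exact hRpos
  -- y
  set y := Y r X with hy
  set t : ℝ := u ^ ((1 : ℝ) / r) with ht
  have ht1 : 1 ≤ t := Real.one_le_rpow (by linarith) (by positivity)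
  have htu : t ≤ √u := by
    rw [Real.sqrt_eq_rpow]
    refine Real.rpow_le_rpow_of_exponent_le (by linarith) ?_
    exact one_div_le_one_div_of_le (by norm_num) hrR
  have hy8 : 8 * t ≤ y := Nat.le_ceil _
  have hy9 : (y : ℝ) ≤ 9 * √u := by
    have h1 : (y : ℝ) < 8 * t + 1 := Nat.ceil_lt_add_one (by positivity)
    linarith
  have hy0 : (0 : ℝ) < y := by linarith
  have hy1 : 1 ≤ y := by exact_mod_cast (show (0 : ℝ) < y from hy0)
  have hlogt : Real.log t = L / r := by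
    rw [ht, Real.log_rpow hu0]
    ring
  have hl8 : Real.log 8 = 3 * Real.log 2 := by
    rw [show (8 : ℝ) = 2 ^ 3 by norm_num, Real.log_pow]
    norm_num
  have hlogy : 3 * Real.log 2 + L / r ≤ Real.log y := by
    rw [← hl8, ← hlogt, ← Real.log_mul (by norm_num) (by positivity)]
    exact Real.log_le_log (by positivity) hy8
  -- D
  set D := DD X with hD
  have hD9 : (D : ℝ) ≤ 9 * L ^ 2 := by
    have h1 : (Nat.log 2 (4 * X) : ℝ) ≤ Real.logb 2 ((4 * X : ℕ) : ℝ) := Real.natLog_le_logb _ _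
    have h2 : Real.logb 2 ((4 * X : ℕ) : ℝ) = L / Real.log 2 := by
      push_cast
      rfl
    have h3 : L / Real.log 2 ≤ 3 / 2 * L := by
      rw [div_le_iff₀ (by linarith)]
      nlinarith
    have h5 : (0 : ℝ) ≤ (Nat.log 2 (4 * X) : ℝ) := Nat.cast_nonneg _
    have h6 : (Nat.log 2 (4 * X) : ℝ) ≤ 3 / 2 * L := by linarith
    have h7 : (D : ℝ) = 4 * (Nat.log 2 (4 * X) : ℝ) ^ 2 := by
      rw [hD]
      unfold DD
      push_cast
      ring
    rw [h7]
    nlinarith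
  have hD1 : 1 ≤ D := by
    have h1 : 1 ≤ Nat.log 2 (4 * X) := by
      rw [Nat.le_log_iff_pow_le (by norm_num) (by omega)]
      omega
    rw [hD]
    unfold DD
    nlinarith
  have hD0 : (0 : ℝ) < D := by exact_mod_cast hD1
  have hL6 : L ^ 2 ≤ L ^ 6 := pow_le_pow_right₀ hL1 (by norm_num)
  have hLsq : 0 ≤ L ^ 2 := by positivity
  have hsu : 0 ≤ √u := Real.sqrt_nonneg u
  have hprod : 0 ≤ 9 * √u * (L + 2 * r) := by positivity
  have hprod2 : 0 ≤ (r : ℝ) * (729 * L ^ 6 + 3 * L) := by positivity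
  have hyX : (y : ℝ) ≤ X := by
    have h1 : 9 * √u * 1 ≤ 9 * √u * (L + 2 * r) :=
      mul_le_mul_of_nonneg_left (by linarith) (by positivity)
    linarith
  have hDX : (D : ℝ) ≤ X := by
    have h1 : 1 * (729 * L ^ 6 + 3 * L) ≤ (r : ℝ) * (729 * L ^ 6 + 3 * L) :=
      mul_le_mul_of_nonneg_right (by linarith) (by positivity)
    nlinarith
  -- left side
  have hw : (W X : ℝ) * L ≤ X := by
    have h1 : (W X : ℝ) ≤ X / L := Nat.floor_le (by positivity)
    calc (W X : ℝ) * L ≤ X / L * L := mul_le_mul_of_nonneg_right h1 (by linarith)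
      _ = X := by field_simp
  have hkR : (k : ℝ) ≤ K + W X := by exact_mod_cast hk
  have hWX : (W X : ℝ) ≤ X := by
    have h1 : (W X : ℝ) * 1 ≤ W X * L := mul_le_mul_of_nonneg_left hL1 (Nat.cast_nonneg _)
    linarith
  have hKR3 : (K : ℝ) ≤ 3 * X := by exact_mod_cast hK3
  have hKRX : (X : ℝ) ≤ K := by exact_mod_cast hXK
  have hlogk : Real.log (k ! : ℝ) ≤ K * L + K := by
    rcases Nat.eq_zero_or_pos k with hk0 | hk0
    · rw [hk0]
      simp only [Nat.factorial_zero, Nat.cast_one, Real.log_one]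
      positivity
    · have hk0' : (0 : ℝ) < k := by exact_mod_cast hk0
      have h1 := SizeIneq_fact_le k hk0 (c := L) (Real.log_le_log hk0' (by rw [hu]; linarith))
      have h2 : (k : ℝ) * L ≤ (K + W X) * L := mul_le_mul_of_nonneg_right hkR (by linarith)
      nlinarith
  have hm0' : (0 : ℝ) < m := by exact_mod_cast hm0
  have hlogm : (r : ℝ) * Real.log m ≤ K * L + K := by
    have h1 : ((m : ℝ)) ^ r ≤ (k ! : ℝ) := by exact_mod_cast hm
    have h2 := Real.log_le_log (by positivity) h1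
    rw [Real.log_pow] at h2
    linarith
  have hlogD : (D : ℝ) * Real.log (D ! : ℝ) ≤ 729 * L ^ 6 := by
    have h1 := SizeIneq_fact_le D hD1 (c := (D : ℝ)) ((Real.log_le_sub_one_of_pos hD0).trans
      (by linarith))
    have h2 : (D : ℝ) * Real.log (D ! : ℝ) ≤ D * (D * D) := mul_le_mul_of_nonneg_left h1 hD0.le
    have h3 : (D : ℝ) ^ 3 ≤ (9 * L ^ 2) ^ 3 := pow_le_pow_left₀ hD0.le hD9 3
    nlinarith
  have hlogyD : Real.log ((2 * (y : ℝ)) ^ 2 * D) ≤ 3 * L := by
    have h1 : (2 * (y : ℝ)) ^ 2 * D ≤ u ^ 3 := by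
      have h2 : (2 * (y : ℝ)) ^ 2 ≤ u ^ 2 := pow_le_pow_left₀ (by positivity) (by linarith) 2
      calc (2 * (y : ℝ)) ^ 2 * D ≤ u ^ 2 * u :=
            mul_le_mul h2 (by linarith) hD0.le (by positivity)
        _ = u ^ 3 := by ring
    have h2 := Real.log_le_log (by positivity) h1
    rw [Real.log_pow] at h2
    exact_mod_cast h2
  -- right side
  have hdiv : (K : ℝ) - y ≤ (K / y : ℕ) * y := by
    have h1 := Nat.div_add_mod K y
    have h2 := Nat.mod_lt K (show 0 < y by omega)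
    have h3 : (K : ℝ) = y * (K / y : ℕ) + (K % y : ℕ) := by exact_mod_cast h1.symm
    have h5 : ((K % y : ℕ) : ℝ) ≤ y := by exact_mod_cast h2.le
    rw [h3]
    linarith
  have hlogR : ((K : ℝ) - y) * (3 * Real.log 2 - 1 + L / r) ≤ (K / y : ℕ) * Real.log (y ! : ℝ) := by
    have h1 := SizeIneq_log_fact y hy1
    have h2 : (y : ℝ) * (3 * Real.log 2 - 1 + L / r) ≤ Real.log (y ! : ℝ) :=
      (mul_le_mul_of_nonneg_left (by linarith) hy0.le).trans h1
    have hpos : 0 ≤ 3 * Real.log 2 - 1 + L / r := by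
      have : 0 ≤ L / r := by positivity
      linarith
    calc ((K : ℝ) - y) * (3 * Real.log 2 - 1 + L / r)
        ≤ ((K / y : ℕ) * y) * (3 * Real.log 2 - 1 + L / r) :=
          mul_le_mul_of_nonneg_right hdiv hpos
      _ = (K / y : ℕ) * (y * (3 * Real.log 2 - 1 + L / r)) := by ring
      _ ≤ _ := mul_le_mul_of_nonneg_left h2 (Nat.cast_nonneg _)
  -- comparison of the logarithms
  have hDf : (0 : ℝ) < (D ! : ℝ) := by exact_mod_cast Nat.factorial_pos D
  have hyf : (0 : ℝ) < (y ! : ℝ) := by exact_mod_cast Nat.factorial_pos y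
  have hlt : Real.log ((D ! : ℝ) ^ D * ((2 * (y : ℝ)) ^ 2 * D) * m) <
      Real.log ((y ! : ℝ) ^ (K / y)) := by
    rw [Real.log_mul (by positivity) hm0'.ne', Real.log_mul (by positivity) (by positivity),
      Real.log_pow, Real.log_pow]
    have hr0 : (0 : ℝ) < r := by linarith
    refine lt_of_mul_lt_mul_left (a := (r : ℝ)) ?_ hr0.le
    have h1 : (r : ℝ) * (((K : ℝ) - y) * (3 * Real.log 2 - 1 + L / r)) =
        ((K : ℝ) - y) * (r * (3 * Real.log 2 - 1) + L) := by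
      field_simp
    have h2 : (r : ℝ) * (((K : ℝ) - y) * (3 * Real.log 2 - 1 + L / r)) ≤
        r * ((K / y : ℕ) * Real.log (y ! : ℝ)) := mul_le_mul_of_nonneg_left hlogR hr0.le
    rw [h1] at h2
    have h3 : (r : ℝ) * (D * Real.log (D ! : ℝ)) ≤ r * (729 * L ^ 6) :=
      mul_le_mul_of_nonneg_left hlogD hr0.le
    have h5 : (r : ℝ) * Real.log ((2 * (y : ℝ)) ^ 2 * D) ≤ r * (3 * L) :=
      mul_le_mul_of_nonneg_left hlogyD hr0.le
    have h6 : (2 : ℝ) ≤ r * (3 * Real.log 2 - 1) := by nlinarith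
    have h7 : (r : ℝ) * (3 * Real.log 2 - 1) ≤ 2 * r := by nlinarith
    have h8 : (K : ℝ) * 2 ≤ K * (r * (3 * Real.log 2 - 1)) :=
      mul_le_mul_of_nonneg_left h6 (Nat.cast_nonneg _)
    have h9 : (y : ℝ) * (L + r * (3 * Real.log 2 - 1)) ≤ 9 * √u * (L + 2 * r) :=
      mul_le_mul hy9 (by linarith) (by linarith) (by positivity)
    have h10 : ((K : ℝ) - y) * (r * (3 * Real.log 2 - 1) + L) =
        K * L + K * (r * (3 * Real.log 2 - 1)) - y * (L + r * (3 * Real.log 2 - 1)) := by ring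
    rw [h10] at h2
    have h11 : (r : ℝ) * (D * Real.log (D ! : ℝ) + Real.log ((2 * (y : ℝ)) ^ 2 * D) + Real.log m) =
        r * (D * Real.log (D ! : ℝ)) + r * Real.log ((2 * (y : ℝ)) ^ 2 * D) + r * Real.log m := by
      ring
    rw [h11]
    have h12 : (r : ℝ) * (729 * L ^ 6 + 3 * L) = r * (729 * L ^ 6) + r * (3 * L) := by ring
    rw [h12] at hmain
    linarith
  have hfin := (Real.log_lt_log_iff (by positivity) (by positivity)).1 hlt
  exact_mod_cast hfin

end Sur46
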