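import Pool.Agent.W_156d3b_h46.Defs

namespace Sur46

open Nat

theorem small_pow : ∀ L : ℕ, 24 ≤ L → 18496 * L ^ 2 ≤ 2 ^ L := by
  intro L hL
  induction L, hL using Nat.le_induction with
  | base => norm_num
  | succ L hL ih =>
    have h1 : (L + 1) ^ 2 ≤ 2 * L ^ 2 := by nlinarith
    calc 18496 * (L + 1) ^ 2 ≤ 18496 * (2 * L ^ 2) := Nat.mul_le_mul_left _ h1
      _ = 2 * (18496 * L ^ 2) := by ring
      _ ≤ 2 * 2 ^ L := Nat.mul_le_mul_left _ ih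
      _ = 2 ^ (L + 1) := by ring

theorem small_Y (r : ℕ) (hr : 2 ≤ r) (X : ℕ) (hX : 1 ≤ X) : (2 * Y r X) ^ 2 ≤ 1156 * X := by
  have hX' : (1 : ℝ) ≤ (X : ℝ) := by exact_mod_cast hX
  have h4 : (1 : ℝ) ≤ 4 * (X : ℝ) := by linarith
  have hr' : (2 : ℝ) ≤ (r : ℝ) := by exact_mod_cast hr
  have h1 : (4 * (X : ℝ)) ^ ((1 : ℝ) / r) ≤ (4 * (X : ℝ)) ^ ((1 : ℝ) / 2) :=
    Real.rpow_le_rpow_of_exponent_le h4 (one_div_le_one_div_of_le (by norm_num) hr')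
  have h2 : (4 * (X : ℝ)) ^ ((1 : ℝ) / 2) = 2 * Real.sqrt X := by
    rw [← Real.sqrt_eq_rpow, Real.sqrt_mul (by norm_num : (0 : ℝ) ≤ 4)]
    have : Real.sqrt 4 = 2 := by
      rw [show (4 : ℝ) = 2 ^ 2 by norm_num]
      exact Real.sqrt_sq (by norm_num)
    rw [this]
  have hs : 1 ≤ Real.sqrt X := by
    rw [show (1 : ℝ) = Real.sqrt 1 by simp]
    exact Real.sqrt_le_sqrt hX'
  have h3 : (Y r X : ℝ) ≤ 17 * Real.sqrt X := by
    have h5 : (Y r X : ℝ) < 8 * (4 * (X : ℝ)) ^ ((1 : ℝ) / r) + 1 := by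
      unfold Y
      exact Nat.ceil_lt_add_one (by positivity)
    rw [h2] at h1
    linarith
  have h6 : (2 * (Y r X : ℝ)) ^ 2 ≤ 1156 * (X : ℝ) := by
    have h7 : Real.sqrt X ^ 2 = X := Real.sq_sqrt (by linarith)
    have h8 : (0 : ℝ) ≤ (Y r X : ℝ) := Nat.cast_nonneg _
    have h9 : (2 * (Y r X : ℝ)) ^ 2 ≤ (2 * (17 * Real.sqrt X)) ^ 2 :=
      pow_le_pow_left₀ (by linarith) (by linarith) 2
    calc (2 * (Y r X : ℝ)) ^ 2 ≤ (2 * (17 * Real.sqrt X)) ^ 2 := h9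
      _ = 1156 * Real.sqrt X ^ 2 := by ring
      _ = 1156 * (X : ℝ) := by rw [h7]
  exact_mod_cast h6

/-- `4 (8 (4X)^{1/2} + 1)^2 * 4 log_2(4X)^2 ≤ X^2` for large `X` (and `(4X)^{1/r} ≤ (4X)^{1/2}`). -/
theorem small_ineq (r : ℕ) (hr : 2 ≤ r) :
    ∃ X0 : ℕ, ∀ X ≥ X0, (2 * Y r X) ^ 2 * DD X ≤ X ^ 2 ∧ 1 ≤ DD X ∧ 2 ≤ Y r X ∧ 2 ≤ X := by
  refine ⟨2 ^ 24, fun X hX => ?_⟩
  have hX1 : 1 ≤ X := le_trans (by norm_num) hX
  have hL : 24 ≤ Nat.log 2 (4 * X) := by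
    refine Nat.le_log_of_pow_le (by norm_num) ?_
    omega
  have h1 := small_pow _ hL
  have h2 : 2 ^ Nat.log 2 (4 * X) ≤ 4 * X := Nat.pow_log_le_self 2 (by omega)
  have h3 : 4624 * Nat.log 2 (4 * X) ^ 2 ≤ X := by
    have : 4 * (4624 * Nat.log 2 (4 * X) ^ 2) ≤ 4 * X := by
      calc 4 * (4624 * Nat.log 2 (4 * X) ^ 2) = 18496 * Nat.log 2 (4 * X) ^ 2 := by ring
        _ ≤ _ := h1.trans h2
    omega
  refine ⟨?_, ?_, ?_, le_trans (by norm_num) hX⟩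
  · unfold DD
    calc (2 * Y r X) ^ 2 * (4 * Nat.log 2 (4 * X) ^ 2)
        ≤ (1156 * X) * (4 * Nat.log 2 (4 * X) ^ 2) :=
          Nat.mul_le_mul_right _ (small_Y r hr X hX1)
      _ = X * (4624 * Nat.log 2 (4 * X) ^ 2) := by ring
      _ ≤ X * X := Nat.mul_le_mul_left _ h3
      _ = X ^ 2 := by ring
  · unfold DD
    have h5 : 1 ≤ Nat.log 2 (4 * X) ^ 2 := Nat.one_le_pow _ _ (by omega)
    omega
  · have h5 : (8 : ℝ) ≤ (Y r X : ℝ) := by
      have h6 : 8 * (4 * (X : ℝ)) ^ ((1 : ℝ) / r) ≤ (Y r X : ℝ) := by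
        unfold Y
        exact Nat.le_ceil _
      have h7 : (1 : ℝ) ≤ (4 * (X : ℝ)) ^ ((1 : ℝ) / r) := by
        refine Real.one_le_rpow ?_ (by positivity)
        have : (1 : ℝ) ≤ (X : ℝ) := by exact_mod_cast hX1
        linarith
      linarith
    have h8 : 8 ≤ Y r X := by exact_mod_cast h5
    omega

/-- The number of windows is `O(log)`. -/
theorem asym_windows (X : ℕ) (hX : 1 ≤ X) :
    ((((X + 1) / (W X + 1) + 1 : ℕ) : ℕ) : ℝ) ≤ 3 * Real.log (4 * X) := by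
  have hX' : (1 : ℝ) ≤ X := by exact_mod_cast hX
  have hL : (1 : ℝ) ≤ Real.log (4 * X) := by
    rw [Real.le_log_iff_exp_le (by positivity)]
    have := Real.exp_one_lt_d9
    linarith
  have h1 : (X : ℝ) / Real.log (4 * X) < (W X : ℝ) + 1 := Nat.lt_floor_add_one _
  have h2 : (((X + 1) / (W X + 1) : ℕ) : ℝ) ≤ ((X + 1 : ℕ) : ℝ) / ((W X + 1 : ℕ) : ℝ) :=
    Nat.cast_div_le
  have h3 : ((X + 1 : ℕ) : ℝ) / ((W X + 1 : ℕ) : ℝ) ≤ 2 * Real.log (4 * X) := by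
    push_cast
    rw [div_le_iff₀ (by positivity)]
    have h4 : (X : ℝ) ≤ ((W X : ℝ) + 1) * Real.log (4 * X) := by
      rw [div_lt_iff₀ (by linarith)] at h1
      exact h1.le
    nlinarith
  push_cast at h2 h3 ⊢
  linarith

theorem asym_Y_bounds (r X : ℕ) (hX : 1 ≤ X) :
    (4 * (X : ℝ)) ^ ((1 : ℝ) / r) ≤ Y r X ∧ (Y r X : ℝ) ≤ 9 * (4 * (X : ℝ)) ^ ((1 : ℝ) / r) ∧
      (8 : ℝ) ≤ Y r X := by
  have hX' : (1 : ℝ) ≤ X := by exact_mod_cast hX
  have h1 : (1 : ℝ) ≤ (4 * (X : ℝ)) ^ ((1 : ℝ) / r) :=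
    Real.one_le_rpow (by linarith) (by positivity)
  have h2 : 8 * (4 * (X : ℝ)) ^ ((1 : ℝ) / r) ≤ Y r X := Nat.le_ceil _
  have h3 : (Y r X : ℝ) < 8 * (4 * (X : ℝ)) ^ ((1 : ℝ) / r) + 1 :=
    Nat.ceil_lt_add_one (by positivity)
  refine ⟨by linarith, by linarith, by linarith⟩

theorem asym_primesTo_card (y : ℕ) : (primesTo y).card = Nat.primeCounting y := by
  rw [Nat.primeCounting, Nat.primeCounting', Nat.count_eq_card_filter_range, primesTo]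

theorem asym_primes_mul_log (r X : ℕ) (hr : 1 ≤ r) (hX : 1 ≤ X) :
    ((primesTo (Y r X)).card : ℝ) * Real.log (4 * X) ≤
      (18 * r * Real.log 4 + 6 * r) * (4 * (X : ℝ)) ^ ((1 : ℝ) / r) := by
  have hX' : (1 : ℝ) ≤ X := by exact_mod_cast hX
  have hr' : (1 : ℝ) ≤ r := by exact_mod_cast hr
  have hL : (1 : ℝ) ≤ Real.log (4 * X) := by
    rw [Real.le_log_iff_exp_le (by positivity)]
    have := Real.exp_one_lt_d9
    linarith
  obtain ⟨hy1, hy2, hy3⟩ := asym_Y_bounds r X hX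
  set y : ℝ := (Y r X : ℝ) with hy
  set Z : ℝ := (4 * (X : ℝ)) ^ ((1 : ℝ) / r) with hZ
  set L : ℝ := Real.log (4 * X) with hLd
  have hZ1 : (1 : ℝ) ≤ Z := Real.one_le_rpow (by linarith) (by positivity)
  have hlog4 : 0 < Real.log 4 := Real.log_pos (by norm_num)
  have h1 : ((primesTo (Y r X)).card : ℝ) ≤ Real.log 4 * y / Real.log (Real.sqrt y) + Real.sqrt y := by
    rw [asym_primesTo_card]
    have := Chebyshev.pi_le_log4_mul_div (x := y) (by linarith)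
    rw [hy, Nat.floor_natCast] at this
    exact this
  have h2 : L / (2 * r) ≤ Real.log (Real.sqrt y) := by
    rw [Real.log_sqrt (by linarith)]
    have h3 : Real.log Z ≤ Real.log y := Real.log_le_log (by linarith) hy1
    rw [hZ, Real.log_rpow (by linarith)] at h3
    have h4 : L / (2 * r) = (1 / r * L) / 2 := by field_simp
    rw [h4]
    linarith
  have h2pos : 0 < L / (2 * r) := by positivity
  have h5 : Real.log 4 * y / Real.log (Real.sqrt y) * L ≤ 18 * r * Real.log 4 * Z := by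
    have h6 : Real.log 4 * y / Real.log (Real.sqrt y) ≤ Real.log 4 * (9 * Z) / (L / (2 * r)) := by
      gcongr
    have h7 : Real.log 4 * (9 * Z) / (L / (2 * r)) * L = 18 * r * Real.log 4 * Z := by
      field_simp
      ring
    calc Real.log 4 * y / Real.log (Real.sqrt y) * L
        ≤ Real.log 4 * (9 * Z) / (L / (2 * r)) * L := by gcongr
      _ = _ := h7
  have h8 : Real.sqrt y * L ≤ 6 * r * Z := by
    have h9 : L ≤ (4 * (X : ℝ)) ^ ((1 : ℝ) / (2 * r)) / (1 / (2 * r)) :=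
      Real.log_le_rpow_div (by linarith) (by positivity)
    have h10 : Real.sqrt y ≤ 3 * (4 * (X : ℝ)) ^ ((1 : ℝ) / (2 * r)) := by
      rw [Real.sqrt_le_left (by positivity), mul_pow, ← Real.rpow_natCast ((4 * (X : ℝ)) ^ _) 2,
        ← Real.rpow_mul (by positivity)]
      have : (1 : ℝ) / (2 * r) * ((2 : ℕ) : ℝ) = 1 / r := by
        push_cast
        field_simp
      rw [this]
      linarith
    have h11 : (4 * (X : ℝ)) ^ ((1 : ℝ) / (2 * r)) * (4 * (X : ℝ)) ^ ((1 : ℝ) / (2 * r)) = Z := by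
      rw [← Real.rpow_add (by positivity), hZ]
      congr 1
      field_simp
      norm_num
    calc Real.sqrt y * L ≤ (3 * (4 * (X : ℝ)) ^ ((1 : ℝ) / (2 * r))) *
          ((4 * (X : ℝ)) ^ ((1 : ℝ) / (2 * r)) / (1 / (2 * r))) := by gcongr
      _ = 6 * r * ((4 * (X : ℝ)) ^ ((1 : ℝ) / (2 * r)) * (4 * (X : ℝ)) ^ ((1 : ℝ) / (2 * r))) := by
          field_simp
          ring
      _ = 6 * r * Z := by rw [h11]
  calc ((primesTo (Y r X)).card : ℝ) * L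
      ≤ (Real.log 4 * y / Real.log (Real.sqrt y) + Real.sqrt y) * L := by gcongr
    _ = Real.log 4 * y / Real.log (Real.sqrt y) * L + Real.sqrt y * L := by ring
    _ ≤ 18 * r * Real.log 4 * Z + 6 * r * Z := add_le_add h5 h8
    _ = _ := by ring

theorem asym_second (r : ℕ) (hr : 1 ≤ r) : ∃ B : ℝ, 0 ≤ B ∧ ∀ X : ℕ, 1 ≤ X →
    (((DD X) ^ 2 * (primesTo (Y (r + 1) X)).card : ℕ) : ℝ) * Real.log (4 * X) ≤
      B * (4 * (X : ℝ)) ^ ((1 : ℝ) / r) := by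
  have hr' : (1 : ℝ) ≤ r := by exact_mod_cast hr
  set ε : ℝ := (1 / (r : ℝ) - 1 / ((r : ℝ) + 1)) / 5 with hε
  have hεpos : 0 < ε := by
    rw [hε]
    have : 1 / ((r : ℝ) + 1) < 1 / (r : ℝ) := by
      apply one_div_lt_one_div_of_lt <;> linarith
    linarith
  refine ⟨160 / (Real.log 2) ^ 4 / ε ^ 5, by positivity, fun X hX => ?_⟩
  have hX' : (1 : ℝ) ≤ X := by exact_mod_cast hX
  have hL : (1 : ℝ) ≤ Real.log (4 * X) := by
    rw [Real.le_log_iff_exp_le (by positivity)]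
    have := Real.exp_one_lt_d9
    linarith
  obtain ⟨hy1, hy2, hy3⟩ := asym_Y_bounds (r + 1) X hX
  push_cast at hy1 hy2
  set L : ℝ := Real.log (4 * X) with hLd
  have hlog2 : 0 < Real.log 2 := Real.log_pos (by norm_num)
  have h1 : ((Nat.log 2 (4 * X) : ℕ) : ℝ) ≤ L / Real.log 2 := by
    rw [le_div_iff₀ hlog2]
    have h2 := Nat.pow_log_le_self 2 (x := 4 * X) (by omega)
    have h3 : ((2 : ℝ)) ^ (Nat.log 2 (4 * X)) ≤ 4 * X := by exact_mod_cast h2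
    have h4 := Real.log_le_log (by positivity) h3
    rw [Real.log_pow] at h4
    exact h4
  have hcard : (((primesTo (Y (r + 1) X)).card : ℕ) : ℝ) ≤
      10 * (4 * (X : ℝ)) ^ ((1 : ℝ) / ((r : ℝ) + 1)) := by
    have h5 : (primesTo (Y (r + 1) X)).card ≤ Y (r + 1) X + 1 := by
      calc (primesTo (Y (r + 1) X)).card ≤ (Finset.range (Y (r + 1) X + 1)).card :=
            Finset.card_filter_le _ _
        _ = _ := Finset.card_range _
    have h6 : (((primesTo (Y (r + 1) X)).card : ℕ) : ℝ) ≤ (Y (r + 1) X : ℝ) + 1 := by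
      exact_mod_cast h5
    have h7 : (1 : ℝ) ≤ (4 * (X : ℝ)) ^ ((1 : ℝ) / ((r : ℝ) + 1)) :=
      Real.one_le_rpow (by linarith) (by positivity)
    linarith
  have h9 : L ≤ (4 * (X : ℝ)) ^ ε / ε := Real.log_le_rpow_div (by linarith) hεpos
  have h10 : L ^ 5 ≤ (4 * (X : ℝ)) ^ (5 * ε) / ε ^ 5 := by
    have h11 : (4 * (X : ℝ)) ^ (5 * ε) = ((4 * (X : ℝ)) ^ ε) ^ 5 := by
      rw [← Real.rpow_natCast _ 5, ← Real.rpow_mul (by positivity)]
      congr 1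
      push_cast
      ring
    rw [h11, ← div_pow]
    exact pow_le_pow_left₀ (by linarith) h9 5
  have h12 : (4 * (X : ℝ)) ^ (5 * ε) * (4 * (X : ℝ)) ^ ((1 : ℝ) / ((r : ℝ) + 1)) =
      (4 * (X : ℝ)) ^ ((1 : ℝ) / r) := by
    rw [← Real.rpow_add (by positivity)]
    congr 1
    rw [hε]
    ring
  have hDD : ((DD X : ℕ) : ℝ) ^ 2 ≤ 16 * (L / Real.log 2) ^ 4 := by
    rw [DD]
    push_cast
    calc (4 * ((Nat.log 2 (4 * X) : ℕ) : ℝ) ^ 2) ^ 2 = 16 * ((Nat.log 2 (4 * X) : ℕ) : ℝ) ^ 4 := by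
          ring
      _ ≤ 16 * (L / Real.log 2) ^ 4 := by gcongr
  push_cast
  calc ((DD X : ℕ) : ℝ) ^ 2 * (((primesTo (Y (r + 1) X)).card : ℕ) : ℝ) * L
      ≤ (16 * (L / Real.log 2) ^ 4) * (10 * (4 * (X : ℝ)) ^ ((1 : ℝ) / ((r : ℝ) + 1))) * L := by
        gcongr
    _ = 160 / (Real.log 2) ^ 4 * L ^ 5 * (4 * (X : ℝ)) ^ ((1 : ℝ) / ((r : ℝ) + 1)) := by
        field_simp
        ring
    _ ≤ 160 / (Real.log 2) ^ 4 * ((4 * (X : ℝ)) ^ (5 * ε) / ε ^ 5) *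
          (4 * (X : ℝ)) ^ ((1 : ℝ) / ((r : ℝ) + 1)) := by gcongr
    _ = 160 / (Real.log 2) ^ 4 / ε ^ 5 * ((4 * (X : ℝ)) ^ (5 * ε) *
          (4 * (X : ℝ)) ^ ((1 : ℝ) / ((r : ℝ) + 1))) := by
        field_simp
    _ = _ := by rw [h12]

/-- Asymptotics.  The number of windows `(X+1)/(W X + 1) + 1` is `≤ 2 log (4X) + 3`; the first term is
`O_r(X^{1/r} / log X)` by Chebyshev's bound (Mathlib: `Chebyshev.pi_le_log4_mul_div`, or
`Chebyshev.eventually_primeCounting_le`; `(primesTo y).card = π y`), the second is at most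
`12 D^2 (Y (r+1) X + 1) = O(log^4 X * X^{1/(r+1)})`. -/
theorem asymp (r : ℕ) (hr : 2 ≤ r) : ∃ C : ℝ, ∃ X0 : ℕ, 0 ≤ C ∧ ∀ X ≥ X0,
    ((((X + 1) / (W X + 1) + 1) *
      (12 * r * (primesTo (Y r X)).card + 12 * (DD X) ^ 2 * (primesTo (Y (r + 1) X)).card) : ℕ) : ℝ)
      ≤ C * (X : ℝ) ^ ((1 : ℝ) / r) := by
  obtain ⟨B, hB, hB2⟩ := asym_second r (by omega)
  have hlog4 : 0 < Real.log 4 := Real.log_pos (by norm_num)
  refine ⟨3 * (12 * r * (18 * r * Real.log 4 + 6 * r) + 12 * B) * (4 : ℝ) ^ ((1 : ℝ) / r), 1,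
    by positivity, fun X hX => ?_⟩
  have h1 := asym_windows X hX
  have h2 := asym_primes_mul_log r X (by omega) hX
  have h3 := hB2 X hX
  have hX' : (1 : ℝ) ≤ X := by exact_mod_cast hX
  have hL : (1 : ℝ) ≤ Real.log (4 * X) := by
    rw [Real.le_log_iff_exp_le (by positivity)]
    have := Real.exp_one_lt_d9
    linarith
  rw [Nat.cast_mul]
  have h4 : (((12 * r * (primesTo (Y r X)).card +
      12 * (DD X) ^ 2 * (primesTo (Y (r + 1) X)).card : ℕ)) : ℝ) * Real.log (4 * X) ≤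
      (12 * r * (18 * r * Real.log 4 + 6 * r) + 12 * B) * (4 * (X : ℝ)) ^ ((1 : ℝ) / r) := by
    push_cast at h3 ⊢
    have h5 : 12 * (r : ℝ) * (((primesTo (Y r X)).card : ℝ) * Real.log (4 * X)) ≤
        12 * r * ((18 * r * Real.log 4 + 6 * r) * (4 * (X : ℝ)) ^ ((1 : ℝ) / r)) := by gcongr
    linarith
  calc ((((X + 1) / (W X + 1) + 1 : ℕ) : ℕ) : ℝ) * (((12 * r * (primesTo (Y r X)).card +
      12 * (DD X) ^ 2 * (primesTo (Y (r + 1) X)).card : ℕ)) : ℝ)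
      ≤ 3 * Real.log (4 * X) * (((12 * r * (primesTo (Y r X)).card +
      12 * (DD X) ^ 2 * (primesTo (Y (r + 1) X)).card : ℕ)) : ℝ) := by gcongr
    _ = 3 * ((((12 * r * (primesTo (Y r X)).card +
      12 * (DD X) ^ 2 * (primesTo (Y (r + 1) X)).card : ℕ)) : ℝ) * Real.log (4 * X)) := by ring
    _ ≤ 3 * ((12 * r * (18 * r * Real.log 4 + 6 * r) + 12 * B) *
          (4 * (X : ℝ)) ^ ((1 : ℝ) / r)) := by gcongr
    _ = _ := by
      rw [Real.mul_rpow (by norm_num) (by linarith)]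
      ring

end Sur46
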