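import Pool.Agent.W_156d3b_h46.Defs
import Pool.Agent.W_156d3b_h46.Padic
import Pool.Agent.W_156d3b_h46.Siegel
import Pool.Agent.W_156d3b_h46.DvdComb
import Pool.Agent.W_156d3b_h46.Lac
import Pool.Agent.W_156d3b_h46.SizeIneq
import Pool.Agent.W_156d3b_h46.Small

namespace Sur46

open Nat

theorem primesTo_card_le (y : ℕ) : (primesTo y).card ≤ y := by
  have h : primesTo y ⊆ Finset.Icc 1 y := by
    intro p hp
    simp only [primesTo, Finset.mem_filter, Finset.mem_range] at hp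
    exact Finset.mem_Icc.2 ⟨hp.2.one_lt.le, by omega⟩
  have := Finset.card_le_card h
  simpa using this

theorem two_mem_primesTo {y : ℕ} (hy : 2 ≤ y) : 0 < (primesTo y).card := by
  apply Finset.card_pos.2
  exact ⟨2, by simp only [primesTo, Finset.mem_filter, Finset.mem_range]; exact ⟨by omega, Nat.prime_two⟩⟩

/-- Every lacunary set of solutions in a window has fewer than `2 π(y)` elements. -/
theorem core (r : ℕ) (hr : 2 ≤ r) : ∃ X0 : ℕ, ∀ X ≥ X0, ∀ K, X ≤ K → K ≤ 3 * X →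
    ∀ (T : Finset ℕ) (m d : ℕ → ℕ),
    (∀ k ∈ T, K ≤ k ∧ k ≤ K + W X ∧ Sol k (m k) (d k) ∧ d k ≤ DD X ∧ (m k) ^ r ≤ k !) →
    (∀ k ∈ T, ∀ k' ∈ T, k ≠ k' → X ^ 2 * m k < m k' ∨ X ^ 2 * m k' < m k) →
    T.card < 2 * (primesTo (Y r X)).card := by
  obtain ⟨X1, h1⟩ := size_ineq r hr
  obtain ⟨X2, h2⟩ := small_ineq r hr
  refine ⟨max X1 X2, ?_⟩
  intro X hX K hXK hK3 T m d hT hlac
  have hX1 : X1 ≤ X := le_trans (le_max_left _ _) hX
  have hX2 : X2 ≤ X := le_trans (le_max_right _ _) hX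
  obtain ⟨hs1, hD1, hY2, hX22⟩ := h2 X hX2
  have hsize := h1 X hX1 K hXK hK3
  set y := Y r X with hy
  set D := DD X with hD
  by_contra hcon
  push Not at hcon
  obtain ⟨T', hT'T, hT'card⟩ := Finset.exists_subset_card_eq hcon
  have hPpos : 0 < (primesTo y).card := two_mem_primesTo hY2
  have hPle : (primesTo y).card ≤ y := primesTo_card_le y
  -- the indices
  have hex : ∀ p k, ∃ i, (p.Prime → k ∈ T' → (1 ≤ i ∧ i ≤ d k ∧
      ∀ e, p ^ e ∣ k ! → p ^ e ∣ (m k + i) * ((d k - 1)!) ^ (d k - 1))) := by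
    intro p k
    by_cases hp : p.Prime
    · by_cases hk : k ∈ T'
      · obtain ⟨i, hi⟩ := Sol.padic (hT k (hT'T hk)).2.2.1 hp
        exact ⟨i, fun _ _ => hi⟩
      · exact ⟨0, fun _ h => absurd h hk⟩
    · exact ⟨0, fun h => absurd h hp⟩
  choose i hi using hex
  obtain ⟨u, hu1, hu2, hu3⟩ := siegel (primesTo y) T' hPpos hT'card (fun p k => (i p k : ℤ)) D hD1
    (by
      intro p hp k hk
      have hpp : p.Prime := by
        simp only [primesTo, Finset.mem_filter] at hp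
        exact hp.2
      have h3 := (hi p k hpp hk).2.1
      have h4 := (hT k (hT'T hk)).2.2.2.1
      have h5 : i p k ≤ D := le_trans h3 h4
      show |((i p k : ℕ) : ℤ)| ≤ (D : ℤ)
      rw [abs_of_nonneg (by positivity)]
      exact_mod_cast h5)
  have hdvd := dvd_comb (K := K) (y := y) (q := K / y) (D := D) T' m d i u
    (fun k hk => (hT k (hT'T hk)).1) (fun k hk => (hT k (hT'T hk)).2.2.2.1)
    (Nat.div_mul_le_self K y)
    (fun p hp k hk e he => (hi p k hp hk).2.2 e he)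
    (by
      intro p hp hpy
      exact hu2 p (by simp only [primesTo, Finset.mem_filter, Finset.mem_range]; exact ⟨by omega, hp⟩))
  have hcard : T'.card ≤ 2 * y := by omega
  have hne := comb_ne_zero (G := X ^ 2) (N := T'.card) (B := T'.card * D) T' m u le_rfl
    (by
      calc T'.card * (T'.card * D) ≤ (2 * y) * ((2 * y) * D) :=
            Nat.mul_le_mul hcard (Nat.mul_le_mul_right _ hcard)
        _ = (2 * y) ^ 2 * D := by ring
        _ ≤ X ^ 2 := hs1)
    (fun k hk k' hk' hkk' => hlac k (hT'T hk) k' (hT'T hk') hkk')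
    (fun k hk => by
      have := (hT k (hT'T hk)).2.2.1
      unfold Sol at this
      omega)
    (by
      intro k hk
      have := hu3 k hk
      push_cast
      exact this)
    hu1
  -- the maximal m
  have hT'ne : T'.Nonempty := by
    rw [← Finset.card_pos, hT'card]; omega
  obtain ⟨k0, hk0, hk0max⟩ := Finset.exists_max_image T' m hT'ne
  have hkk := hT k0 (hT'T hk0)
  have hfin := hsize k0 hkk.2.1 (m k0) hkk.2.2.2.2
  -- bound for L
  have hL : |∑ k ∈ T', (m k : ℤ) * u k| ≤ (((2 * y) ^ 2 * D * m k0 : ℕ) : ℤ) := by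
    calc |∑ k ∈ T', (m k : ℤ) * u k| ≤ ∑ k ∈ T', |(m k : ℤ) * u k| :=
          Finset.abs_sum_le_sum_abs _ _
      _ ≤ ∑ k ∈ T', (m k0 : ℤ) * ((T'.card : ℤ) * D) := by
          apply Finset.sum_le_sum
          intro k hk
          rw [abs_mul, abs_of_nonneg (by positivity : (0:ℤ) ≤ (m k : ℤ))]
          apply mul_le_mul
          · exact_mod_cast hk0max k hk
          · exact hu3 k hk
          · exact abs_nonneg _
          · positivity
      _ = (T'.card : ℤ) * ((m k0 : ℤ) * ((T'.card : ℤ) * D)) := by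
          rw [Finset.sum_const, nsmul_eq_mul]
      _ ≤ (((2 * y) ^ 2 * D * m k0 : ℕ) : ℤ) := by
          have : T'.card * (m k0 * (T'.card * D)) ≤ (2 * y) ^ 2 * D * m k0 := by
            calc T'.card * (m k0 * (T'.card * D)) ≤ (2 * y) * (m k0 * ((2 * y) * D)) := by
                  gcongr
              _ = (2 * y) ^ 2 * D * m k0 := by ring
          exact_mod_cast this
  have hne2 : (((D !) ^ D : ℕ) : ℤ) * ∑ k ∈ T', (m k : ℤ) * u k ≠ 0 := by
    apply mul_ne_zero _ hne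
    have : (D !) ^ D ≠ 0 := pow_ne_zero _ (Nat.factorial_ne_zero D)
    exact_mod_cast this
  have hle := Int.le_of_dvd (abs_pos.2 hne2) ((dvd_abs _ _).2 hdvd)
  rw [abs_mul, abs_of_nonneg (by positivity : (0:ℤ) ≤ (((D !) ^ D : ℕ) : ℤ))] at hle
  have h6 : (((y !) ^ (K / y) : ℕ) : ℤ) ≤ (((D !) ^ D * ((2 * y) ^ 2 * D) * m k0 : ℕ) : ℤ) := by
    calc (((y !) ^ (K / y) : ℕ) : ℤ) ≤ (((D !) ^ D : ℕ) : ℤ) * |∑ k ∈ T', (m k : ℤ) * u k| := hle
      _ ≤ (((D !) ^ D : ℕ) : ℤ) * (((2 * y) ^ 2 * D * m k0 : ℕ) : ℤ) := by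
          apply mul_le_mul_of_nonneg_left hL (by positivity)
      _ = (((D !) ^ D * ((2 * y) ^ 2 * D) * m k0 : ℕ) : ℤ) := by
          push_cast; ring
  have h7 : (y !) ^ (K / y) ≤ (D !) ^ D * ((2 * y) ^ 2 * D) * m k0 := by exact_mod_cast h6
  omega

end Sur46
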