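import Pool.Agent.W_156d3b_h46.Defs

namespace Sur46

open Nat

/-- PROOF. Every `k` with `X < k ≤ 2X+1` lies in the window `[K, K+w]` with `K = X + (w+1) j`,
`j = (k - X)/(w+1) ≤ (X+1)/(w+1)`, and `X ≤ K ≤ 2X+1 ≤ 3X`. Union bound over
`j ∈ range ((X+1)/(w+1) + 1)` (windows with `K > 2X+1` may be dropped or bounded by zero points). -/
theorem cover (Q : ℕ → Prop) [DecidablePred Q] (X w B : ℕ) (hX : 1 ≤ X)
    (h : ∀ K, X ≤ K → K ≤ 3 * X → ((Finset.Icc K (K + w)).filter Q).card ≤ B) :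
    ((Finset.Ioc X (2 * X + 1)).filter Q).card ≤ ((X + 1) / (w + 1) + 1) * B := by
  have hsub : (Finset.Ioc X (2 * X + 1)).filter Q ⊆
      (Finset.range ((X + 1) / (w + 1) + 1)).biUnion fun j =>
        (Finset.Icc (X + (w + 1) * j) (X + (w + 1) * j + w)).filter Q := by
    intro k hk
    rw [Finset.mem_filter, Finset.mem_Ioc] at hk
    obtain ⟨⟨h1, h2⟩, h3⟩ := hk
    have h4 : (w + 1) * ((k - X) / (w + 1)) ≤ k - X := Nat.mul_div_le _ _
    have h5 : k - X < (w + 1) * ((k - X) / (w + 1)) + (w + 1) := Nat.lt_mul_div_succ _ (Nat.succ_pos w)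
    rw [Finset.mem_biUnion]
    refine ⟨(k - X) / (w + 1), ?_, ?_⟩
    · rw [Finset.mem_range]
      exact Nat.lt_succ_of_le (Nat.div_le_div_right (by omega))
    · rw [Finset.mem_filter, Finset.mem_Icc]
      exact ⟨⟨by omega, by omega⟩, h3⟩
  refine (Finset.card_le_card hsub).trans (Finset.card_biUnion_le.trans ?_)
  refine (Finset.sum_le_card_nsmul _ _ B fun j hj => ?_).trans (le_of_eq ?_)
  · rw [Finset.mem_range] at hj
    refine h _ (Nat.le_add_right _ _) ?_
    have h1 : (w + 1) * j ≤ (w + 1) * ((X + 1) / (w + 1)) := Nat.mul_le_mul_left _ (by omega)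
    have h2 : (w + 1) * ((X + 1) / (w + 1)) ≤ X + 1 := Nat.mul_div_le _ _
    omega
  · rw [Finset.card_range, smul_eq_mul]

/-- PROOF. Strong induction on `x`: for `x` large put `X = x / 2`; then
`f x ≤ f X + C X^{1/r}` (`Q`-points in `(X, 2X+1] ⊇ (X, x]`) and `A (x/2)^{1/r} + C (x/2)^{1/r} ≤ A x^{1/r}` if
`A (2^{1/r} - 1) ≥ C`; for `1 ≤ x < 2 X0 + 2` use `f x ≤ x + 1 ≤ A`. `x = 0`: the count is zero by `h0`
and `0 ^ (1/r) = 0`. -/
theorem dyadic (Q : ℕ → Prop) [DecidablePred Q] (h0 : ¬ Q 0) (r : ℕ) (hr : 2 ≤ r) (C : ℝ)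
    (hC : 0 ≤ C) (X0 : ℕ)
    (h : ∀ X ≥ X0, (((Finset.Ioc X (2 * X + 1)).filter Q).card : ℝ) ≤ C * (X : ℝ) ^ ((1 : ℝ) / r)) :
    ∃ A : ℝ, ∀ x : ℕ, (((Finset.range (x + 1)).filter Q).card : ℝ) ≤ A * (x : ℝ) ^ ((1 : ℝ) / r) := by
  have hr0 : (0 : ℝ) < (1 : ℝ) / r := by
    have : (0 : ℝ) < r := by exact_mod_cast (by omega : 0 < r)
    positivity
  obtain ⟨ρ, hρ⟩ : ∃ ρ : ℝ, ρ = (1 : ℝ) / r := ⟨_, rfl⟩
  rw [← hρ] at hr0
  simp only [← hρ] at h ⊢
  have h2 : (1 : ℝ) < (2 : ℝ) ^ ρ := Real.one_lt_rpow (by norm_num) hr0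
  obtain ⟨A, hA⟩ : ∃ A : ℝ, A = max (C / ((2 : ℝ) ^ ρ - 1)) (2 * X0 + 3) := ⟨_, rfl⟩
  have hA1 : C / ((2 : ℝ) ^ ρ - 1) ≤ A := hA ▸ le_max_left _ _
  have hA2 : (2 * X0 + 3 : ℝ) ≤ A := hA ▸ le_max_right _ _
  have hA0 : 0 ≤ A := by
    have : (0 : ℝ) ≤ X0 := Nat.cast_nonneg _
    linarith
  have hA3 : C ≤ A * ((2 : ℝ) ^ ρ - 1) := (div_le_iff₀ (by linarith)).1 hA1
  refine ⟨A, fun x => ?_⟩
  induction x using Nat.strong_induction_on with
  | _ x ih =>
    rcases Nat.eq_zero_or_pos x with hx | hx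
    · subst hx
      have h3 : (Finset.range (0 + 1)).filter Q = ∅ := by
        rw [Finset.filter_eq_empty_iff]
        intro k hk hQ
        rw [Finset.mem_range] at hk
        obtain rfl : k = 0 := by omega
        exact h0 hQ
      rw [h3, Finset.card_empty]
      simp only [Nat.cast_zero]
      positivity
    · have hx1 : (1 : ℝ) ≤ x := by exact_mod_cast hx
      by_cases hxX : x < 2 * X0 + 2
      · have h3 : ((Finset.range (x + 1)).filter Q).card ≤ x + 1 :=
          (Finset.card_filter_le _ _).trans (le_of_eq (Finset.card_range _))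
        have h4 : (((Finset.range (x + 1)).filter Q).card : ℝ) ≤ x + 1 := by exact_mod_cast h3
        have h5 : (x : ℝ) < 2 * X0 + 2 := by exact_mod_cast hxX
        have h6 : (1 : ℝ) ≤ (x : ℝ) ^ ρ := Real.one_le_rpow hx1 hr0.le
        calc (((Finset.range (x + 1)).filter Q).card : ℝ) ≤ A := by linarith
          _ = A * 1 := (mul_one A).symm
          _ ≤ A * (x : ℝ) ^ ρ := mul_le_mul_of_nonneg_left h6 hA0
      · have hX : X0 ≤ x / 2 := by omega
        have hlt : x / 2 < x := by omega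
        have h3 := ih (x / 2) hlt
        have h4 := h (x / 2) hX
        have h5 : ((Finset.range (x + 1)).filter Q) ⊆ ((Finset.range (x / 2 + 1)).filter Q) ∪
            ((Finset.Ioc (x / 2) (2 * (x / 2) + 1)).filter Q) := by
          intro k hk
          rw [Finset.mem_filter, Finset.mem_range] at hk
          rw [Finset.mem_union, Finset.mem_filter, Finset.mem_filter, Finset.mem_range,
            Finset.mem_Ioc]
          by_cases hk2 : k < x / 2 + 1
          · exact Or.inl ⟨hk2, hk.2⟩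
          · exact Or.inr ⟨⟨by omega, by omega⟩, hk.2⟩
        have h6 : ((Finset.range (x + 1)).filter Q).card ≤
            ((Finset.range (x / 2 + 1)).filter Q).card +
            ((Finset.Ioc (x / 2) (2 * (x / 2) + 1)).filter Q).card :=
          (Finset.card_le_card h5).trans (Finset.card_union_le _ _)
        have h7 : (((Finset.range (x + 1)).filter Q).card : ℝ) ≤
            (((Finset.range (x / 2 + 1)).filter Q).card : ℝ) +
            (((Finset.Ioc (x / 2) (2 * (x / 2) + 1)).filter Q).card : ℝ) := by exact_mod_cast h6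
        have h8 : ((x / 2 : ℕ) : ℝ) ≤ (x : ℝ) / 2 := by
          have := @Nat.cast_div_le ℝ _ _ _ x 2
          simpa using this
        have h9 : ((x / 2 : ℕ) : ℝ) ^ ρ ≤ ((x : ℝ) / 2) ^ ρ :=
          Real.rpow_le_rpow (Nat.cast_nonneg _) h8 hr0.le
        have h10 : ((x : ℝ) / 2) ^ ρ * (2 : ℝ) ^ ρ = (x : ℝ) ^ ρ := by
          rw [← Real.mul_rpow (by positivity) (by norm_num)]
          congr 1
          ring
        have h11 : (0 : ℝ) ≤ ((x : ℝ) / 2) ^ ρ := by positivity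
        calc (((Finset.range (x + 1)).filter Q).card : ℝ)
            ≤ (A + C) * ((x / 2 : ℕ) : ℝ) ^ ρ := by linarith
          _ ≤ (A + C) * ((x : ℝ) / 2) ^ ρ := mul_le_mul_of_nonneg_left h9 (by linarith)
          _ ≤ A * (2 : ℝ) ^ ρ * ((x : ℝ) / 2) ^ ρ :=
              mul_le_mul_of_nonneg_right (by linarith) h11
          _ = A * (x : ℝ) ^ ρ := by rw [← h10]; ring

end Sur46
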