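import Pool.Agent.W_156d3b_h46.Defs

namespace Sur46

open Nat

theorem DBound_pow (a : ℕ) (ha : 8 ≤ a) : 2 * (a + 2) ^ 2 < 2 ^ a := by
  induction a, ha using Nat.le_induction with
  | base => norm_num
  | succ n hn ih =>
    have h : 2 ^ (n + 1) = 2 * 2 ^ n := by ring
    rw [h]
    nlinarith

theorem DBound_val (k d m C : ℕ) (hk : 2 ≤ k) (hC : C = (m + d).choose d)
    (h : k ! = C * d !) : k ≤ d + (Nat.log 2 k + 1) + Nat.log 2 (m + d) := by
  have : Fact (Nat.Prime 2) := ⟨Nat.prime_two⟩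
  have hC0 : C ≠ 0 := by
    rintro rfl
    rw [zero_mul] at h
    exact (Nat.factorial_ne_zero k) h
  have h1 : padicValNat 2 (k !) = padicValNat 2 C + padicValNat 2 (d !) := by
    rw [h, padicValNat.mul hC0 (Nat.factorial_ne_zero d)]
  have h2 := sub_one_mul_padicValNat_factorial (p := 2) k
  have h3 := sub_one_mul_padicValNat_factorial (p := 2) d
  have h4 : padicValNat 2 C ≤ Nat.log 2 (m + d) := by
    have h5 := Nat.factorization_choose_le_log (p := 2) (n := m + d) (k := d)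
    rw [← hC] at h5
    rwa [Nat.factorization_def _ Nat.prime_two] at h5
  have h6 : (Nat.digits 2 k).sum ≤ Nat.log 2 k + 1 := by
    have h7 : (Nat.digits 2 k).length = Nat.log 2 k + 1 :=
      Nat.length_digits 2 k (by norm_num) (by omega)
    rw [← h7]
    have h8 : ∀ l : List ℕ, (∀ x ∈ l, x ≤ 1) → l.sum ≤ l.length := by
      intro l hl
      have := List.sum_le_card_nsmul l 1 hl
      simpa using this
    refine h8 _ fun x hx => ?_
    have := Nat.digits_lt_base (b := 2) (by norm_num) hx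
    omega
  have e1 : padicValNat 2 (k !) = k - (Nat.digits 2 k).sum := by
    rw [← h2]; simp
  have e2 : padicValNat 2 (d !) = d - (Nat.digits 2 d).sum := by
    rw [← h3]; simp
  omega

/-- PROOF. Let `a = Nat.log 2 k`, so `k < 2^(a+1)`; suppose `d > 4 a^2`, `k` large (note `d < k`, since
`k! ≥ (m+1)^d > k^d`).  From `(m+d)! = C(m+d,d) m! d!` we get `k! = C(m+d,d) * d!`.
(1) 2-adic valuations: `v_2(k!) ≥ k - (a+1)` (Legendre: `k - digit sum`), `v_2(d!) ≤ d - 1`
(`Nat.emultiplicity_two_factorial_lt` / `padicValNat`), `v_2(C(m+d,d)) ≤ log_2 (m+d)`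
(`Nat.factorization_choose_le_log`), so `k - d ≤ a + log_2(m+d)`.
(2) `(m+1)^d ≤ k! ≤ k^k < 2^{(a+1)k}` gives `log_2 (m+1) ≤ (a+1) k / d ≤ (a+1) k/(4 a^2)`, and
`m + d < 2 m`, so `log_2 (m+d) ≤ 1 + (a+1)k/(4a^2)`.
(3) `C(m+d,d) = k!/d! ≤ k^{k-d}` and `C(m+d,d) ≥ 2^d` (as `m ≥ d`; e.g. `Nat.pow_le_choose`-like or
`C(m+d,d) ≥ C(2d,d) ≥ 2^d`), so `d ≤ (a+1)(k-d) ≤ (a+1)(a+1) + (a+1)^2 k/(4 a^2)`.
For `a ≥ 7`: `(a+1)^2/(4a^2) ≤ 1/3` and `(a+1)/(4a^2) ≤ 1/20`, so
`k ≤ d + (k-d) ≤ (a+1)^2 + k/3 + (a+1) + k/20`, impossible for large `k`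
because `a ≤ log_2 k`. (Any other proof of such a bound is fine.) -/
theorem d_bound : ∃ K0 : ℕ, ∀ k ≥ K0, ∀ m d : ℕ, Sol k m d → d ≤ 4 * (Nat.log 2 k) ^ 2 := by
  refine ⟨256, fun k hk m d hS => ?_⟩
  obtain ⟨h2, hkm, hfac⟩ := hS
  by_contra hcon
  rw [not_le] at hcon
  set a := Nat.log 2 k with ha
  have ha8 : 8 ≤ a := by
    rw [ha]
    exact Nat.le_log_of_pow_le (by norm_num) (by norm_num; omega)
  have hka : 2 ^ a ≤ k := Nat.pow_log_le_self 2 (by omega)
  have hkb : k < 2 ^ (a + 1) := Nat.lt_pow_succ_log_self (by norm_num) k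
  have hd4 : 4 ≤ d := by nlinarith
  -- the binomial coefficient
  set C := (m + d).choose d with hC
  have hk! : k ! = C * d ! := by
    have h3 := Nat.add_choose_mul_factorial_mul_factorial m d
    rw [← hC, hfac] at h3
    have h5 : m ! * (C * d !) = m ! * k ! := by rw [← h3]; ring
    exact (Nat.eq_of_mul_eq_mul_left (Nat.factorial_pos m) h5).symm
  have hCpos : 0 < C := Nat.choose_pos (by omega)
  have hdk : d ≤ k := by
    by_contra h3
    have h4 : k ! < d ! := Nat.factorial_lt_of_lt (by omega) (by omega)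
    have h5 : d ! ≤ C * d ! := Nat.le_mul_of_pos_left _ hCpos
    omega
  have hval := DBound_val k d m C h2 hC hk!
  rw [← ha] at hval
  set L := Nat.log 2 (m + d) with hL
  have hL1 : 1 ≤ L := Nat.le_log_of_pow_le (by norm_num) (by omega)
  have hLm : 2 ^ L ≤ m + d := Nat.pow_log_le_self 2 (by omega)
  have hLm' : 2 ^ (L - 1) ≤ m := by
    have h3 : 2 ^ L = 2 * 2 ^ (L - 1) := by
      have h4 : L = (L - 1) + 1 := by omega
      rw [h4, _root_.pow_succ']
      simp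
    omega
  -- (2)
  have hpow : (m + 1) ^ d ≤ k ! := by
    have h3 : m ! * (m + 1) ^ d ≤ (m + d)! := Nat.factorial_mul_pow_le_factorial
    rw [hfac] at h3
    exact Nat.le_of_mul_le_mul_left h3 (Nat.factorial_pos m)
  have hkk : k ! ≤ k ^ k := Nat.factorial_le_pow k
  have h5 : (L - 1) * d < (a + 1) * k := by
    have h6 : 2 ^ ((L - 1) * d) < 2 ^ ((a + 1) * k) := by
      calc 2 ^ ((L - 1) * d) = (2 ^ (L - 1)) ^ d := by rw [pow_mul]
        _ ≤ (m + 1) ^ d := Nat.pow_le_pow_left (by omega) d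
        _ ≤ k ^ k := hpow.trans hkk
        _ < (2 ^ (a + 1)) ^ k := Nat.pow_lt_pow_left hkb (by omega)
        _ = 2 ^ ((a + 1) * k) := by rw [pow_mul]
    exact (Nat.pow_lt_pow_iff_right (by norm_num)).1 h6
  -- (3)
  have h7 : d ≤ (a + 1) * (k - d) := by
    have hC2 : 2 ^ d ≤ C := by
      have h8 : (2 * d).choose d ≤ C := by
        rw [hC]
        exact Nat.choose_le_choose d (by omega)
      have h9 := Nat.four_pow_lt_mul_centralBinom d hd4
      have h10 : d < 2 ^ d := Nat.lt_two_pow_self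
      have h11 : d.centralBinom = (2 * d).choose d := rfl
      rw [h11] at h9
      have h12 : (4 : ℕ) ^ d = 2 ^ d * 2 ^ d := by
        rw [← mul_pow]; norm_num
      have h13 : 2 ^ d * 2 ^ d < 2 ^ d * C := by
        calc 2 ^ d * 2 ^ d = 4 ^ d := h12.symm
          _ < d * (2 * d).choose d := h9
          _ ≤ 2 ^ d * C := Nat.mul_le_mul h10.le h8
      exact (Nat.lt_of_mul_lt_mul_left h13).le
    have hCk : C ≤ k ^ (k - d) := by
      have h8 : d ! * (d + 1).ascFactorial (k - d) = (d + (k - d))! :=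
        Nat.factorial_mul_ascFactorial d (k - d)
      have h9 : d + (k - d) = k := by omega
      have h10 := Nat.ascFactorial_le_pow_add d (k - d)
      rw [h9] at h8 h10
      rw [hk!] at h8
      have h11 : d ! * (d + 1).ascFactorial (k - d) = d ! * C := by rw [h8]; ring
      have h12 := Nat.eq_of_mul_eq_mul_left (Nat.factorial_pos d) h11
      rw [← h12]
      exact h10
    have h14 : 2 ^ d ≤ 2 ^ ((a + 1) * (k - d)) := by
      calc 2 ^ d ≤ k ^ (k - d) := hC2.trans hCk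
        _ ≤ (2 ^ (a + 1)) ^ (k - d) := Nat.pow_le_pow_left hkb.le _
        _ = 2 ^ ((a + 1) * (k - d)) := by rw [pow_mul]
    exact (Nat.pow_le_pow_iff_right (by norm_num)).1 h14
  -- conclusion
  obtain ⟨t, ht⟩ : ∃ t, k = d + t := ⟨k - d, by omega⟩
  have htd : k - d = t := by omega
  rw [htd] at h7
  obtain ⟨l, hl⟩ : ∃ l, L = l + 1 := ⟨L - 1, by omega⟩
  have hl' : L - 1 = l := by omega
  rw [hl'] at h5
  have h20 : t ≤ a + 2 + l := by omega
  have h21 : l * (4 * a ^ 2) ≤ (a + 1) * k :=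
    (Nat.mul_le_mul_left l hcon.le).trans h5.le
  have h22 : k ≤ (a + 2) * (a + 2 + l) := by
    calc k = d + t := ht
      _ ≤ (a + 1) * t + t := by omega
      _ = (a + 2) * t := by ring
      _ ≤ (a + 2) * (a + 2 + l) := Nat.mul_le_mul_left _ h20
  have h23 : 4 * a ^ 2 * k ≤ 4 * a ^ 2 * (a + 2) ^ 2 + (a + 2) * ((a + 1) * k) := by
    calc 4 * a ^ 2 * k ≤ 4 * a ^ 2 * ((a + 2) * (a + 2 + l)) := Nat.mul_le_mul_left _ h22
      _ = 4 * a ^ 2 * (a + 2) ^ 2 + (a + 2) * (l * (4 * a ^ 2)) := by ring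
      _ ≤ 4 * a ^ 2 * (a + 2) ^ 2 + (a + 2) * ((a + 1) * k) :=
        Nat.add_le_add_left (Nat.mul_le_mul_left _ h21) _
  have h24 : (a + 2) * (a + 1) ≤ 2 * a ^ 2 := by nlinarith
  have h25 : (a + 2) * ((a + 1) * k) ≤ 2 * a ^ 2 * k := by
    rw [← mul_assoc]
    exact Nat.mul_le_mul_right _ h24
  have h26 : 2 * a ^ 2 * k ≤ 2 * a ^ 2 * (2 * (a + 2) ^ 2) := by nlinarith
  have h27 : k ≤ 2 * (a + 2) ^ 2 := Nat.le_of_mul_le_mul_left h26 (by positivity)
  have h28 := DBound_pow a ha8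
  omega

end Sur46
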