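import Pool.Agent.W_156d3b_h46.PDefs
import Pool.Agent.W_156d3b_h46.DBound

namespace Sur46

open Nat

theorem DBound2_pow (a : ℕ) (ha : 9 ≤ a) : 3 * ((a + 1) * (a + 2)) < 2 ^ a := by
  induction a, ha using Nat.le_induction with
  | base => norm_num
  | succ n hn ih =>
    have h : 2 ^ (n + 1) = 2 * 2 ^ n := by ring
    rw [h]
    nlinarith

/-- PROOF (compare `DBound.lean`, helper7, whose proof can be adapted: its steps (1), (2), (3) are the same).
Let `a = Nat.log 2 k`, `k` large, and suppose `d > 4 (a+1)`.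
(1) `k ≤ d + a + log_2 (m+d)`  (2-adic valuations of `k! = C(m+d,d) d!`).
(2) `(m+1)^d ≤ k! ≤ k^k` gives `d * log_2(m+1) ≤ (a+1) k`, and `log_2(m+d) ≤ 1 + log_2 (m+1)`.
(3) `2^d ≤ C(m+d,d) = k!/d! ≤ k^(k-d)` gives `d ≤ (a+1)(k-d)`.
From (2) and `d > 4(a+1)`: `log_2(m+d) ≤ 1 + k/4`, so (1) gives `k - d ≤ a + 1 + k/4`, so `d ≥ k/2` for large `k`.
Then (2) gives `log_2(m+d) ≤ 1 + 2(a+1)`, (1) gives `k - d ≤ 3(a+1)`, (3) gives `d ≤ 3(a+1)^2`, so
`k ≤ 3(a+1)^2 + 3(a+1)`, false for large `k`. -/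
theorem d_bound2 : ∃ K0 : ℕ, ∀ k ≥ K0, ∀ m d : ℕ, Sol k m d → d ≤ 4 * (Nat.log 2 k + 1) := by
  refine ⟨512, fun k hk m d hS => ?_⟩
  obtain ⟨h2, hkm, hfac⟩ := hS
  by_contra hcon
  rw [not_le] at hcon
  set a := Nat.log 2 k with ha
  have ha9 : 9 ≤ a := by
    rw [ha]
    exact Nat.le_log_of_pow_le (by norm_num) (by norm_num; omega)
  have hka : 2 ^ a ≤ k := Nat.pow_log_le_self 2 (by omega)
  have hkb : k < 2 ^ (a + 1) := Nat.lt_pow_succ_log_self (by norm_num) k
  have hd4 : 4 ≤ d := by omega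
  -- the binomial coefficient
  set C := (m + d).choose d with hC
  have hk! : k ! = C * d ! := by
    have h3 := Nat.add_choose_mul_factorial_mul_factorial m d
    rw [← hC, hfac] at h3
    have h5 : m ! * (C * d !) = m ! * k ! := by rw [← h3]; ring
    exact (Nat.eq_of_mul_eq_mul_left (Nat.factorial_pos m) h5).symm
  have hCpos : 0 < C := Nat.choose_pos (by omega)
  have hdk : d ≤ k := by
    by_contra h3
    have h4 : k ! < d ! := Nat.factorial_lt_of_lt (by omega) (by omega)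
    have h5 : d ! ≤ C * d ! := Nat.le_mul_of_pos_left _ hCpos
    omega
  have hval := DBound_val k d m C h2 hC hk!
  rw [← ha] at hval
  set L := Nat.log 2 (m + d) with hL
  have hL1 : 1 ≤ L := Nat.le_log_of_pow_le (by norm_num) (by omega)
  have hLm : 2 ^ L ≤ m + d := Nat.pow_log_le_self 2 (by omega)
  have hLm' : 2 ^ (L - 1) ≤ m := by
    have h3 : 2 ^ L = 2 * 2 ^ (L - 1) := by
      have h4 : L = (L - 1) + 1 := by omega
      rw [h4, _root_.pow_succ']
      simp
    omega
  -- (2)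
  have hpow : (m + 1) ^ d ≤ k ! := by
    have h3 : m ! * (m + 1) ^ d ≤ (m + d)! := Nat.factorial_mul_pow_le_factorial
    rw [hfac] at h3
    exact Nat.le_of_mul_le_mul_left h3 (Nat.factorial_pos m)
  have hkk : k ! ≤ k ^ k := Nat.factorial_le_pow k
  have h5 : (L - 1) * d < (a + 1) * k := by
    have h6 : 2 ^ ((L - 1) * d) < 2 ^ ((a + 1) * k) := by
      calc 2 ^ ((L - 1) * d) = (2 ^ (L - 1)) ^ d := by rw [pow_mul]
        _ ≤ (m + 1) ^ d := Nat.pow_le_pow_left (by omega) d
        _ ≤ k ^ k := hpow.trans hkk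
        _ < (2 ^ (a + 1)) ^ k := Nat.pow_lt_pow_left hkb (by omega)
        _ = 2 ^ ((a + 1) * k) := by rw [pow_mul]
    exact (Nat.pow_lt_pow_iff_right (by norm_num)).1 h6
  -- (3)
  have h7 : d ≤ (a + 1) * (k - d) := by
    have hC2 : 2 ^ d ≤ C := by
      have h8 : (2 * d).choose d ≤ C := by
        rw [hC]
        exact Nat.choose_le_choose d (by omega)
      have h9 := Nat.four_pow_lt_mul_centralBinom d hd4
      have h10 : d < 2 ^ d := Nat.lt_two_pow_self
      have h11 : d.centralBinom = (2 * d).choose d := rfl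
      rw [h11] at h9
      have h12 : (4 : ℕ) ^ d = 2 ^ d * 2 ^ d := by
        rw [← mul_pow]; norm_num
      have h13 : 2 ^ d * 2 ^ d < 2 ^ d * C := by
        calc 2 ^ d * 2 ^ d = 4 ^ d := h12.symm
          _ < d * (2 * d).choose d := h9
          _ ≤ 2 ^ d * C := Nat.mul_le_mul h10.le h8
      exact (Nat.lt_of_mul_lt_mul_left h13).le
    have hCk : C ≤ k ^ (k - d) := by
      have h8 : d ! * (d + 1).ascFactorial (k - d) = (d + (k - d))! :=
        Nat.factorial_mul_ascFactorial d (k - d)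
      have h9 : d + (k - d) = k := by omega
      have h10 := Nat.ascFactorial_le_pow_add d (k - d)
      rw [h9] at h8 h10
      rw [hk!] at h8
      have h11 : d ! * (d + 1).ascFactorial (k - d) = d ! * C := by rw [h8]; ring
      have h12 := Nat.eq_of_mul_eq_mul_left (Nat.factorial_pos d) h11
      rw [← h12]
      exact h10
    have h14 : 2 ^ d ≤ 2 ^ ((a + 1) * (k - d)) := by
      calc 2 ^ d ≤ k ^ (k - d) := hC2.trans hCk
        _ ≤ (2 ^ (a + 1)) ^ (k - d) := Nat.pow_le_pow_left hkb.le _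
        _ = 2 ^ ((a + 1) * (k - d)) := by rw [pow_mul]
    exact (Nat.pow_le_pow_iff_right (by norm_num)).1 h14
  -- conclusion
  obtain ⟨t, ht⟩ : ∃ t, k = d + t := ⟨k - d, by omega⟩
  have htd : k - d = t := by omega
  rw [htd] at h7
  obtain ⟨l, hl⟩ : ∃ l, L = l + 1 := ⟨L - 1, by omega⟩
  have hl' : L - 1 = l := by omega
  rw [hl'] at h5
  have h20 : t ≤ a + 2 + l := by omega
  have hpow2 := DBound2_pow a ha9
  -- `4 l < k`
  have h21 : 4 * l < k := by
    have h22 : (a + 1) * (4 * l) < (a + 1) * k := by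
      calc (a + 1) * (4 * l) = l * (4 * (a + 1)) := by ring
        _ ≤ l * d := Nat.mul_le_mul_left l hcon.le
        _ < (a + 1) * k := h5
    exact Nat.lt_of_mul_lt_mul_left h22
  have h23 : 4 * (a + 2) < k := by
    have : 4 * (a + 2) ≤ 3 * ((a + 1) * (a + 2)) := by nlinarith
    omega
  have h24 : k ≤ 2 * d := by omega
  have h25 : l < 2 * (a + 1) := by
    have h26 : k * l < k * (2 * (a + 1)) := by
      calc k * l ≤ (2 * d) * l := Nat.mul_le_mul_right l h24
        _ = 2 * (l * d) := by ring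
        _ < 2 * ((a + 1) * k) := by omega
        _ = k * (2 * (a + 1)) := by ring
    exact Nat.lt_of_mul_lt_mul_left h26
  have h27 : t ≤ 3 * (a + 1) := by omega
  have h28 : k ≤ 3 * ((a + 1) * (a + 2)) := by
    calc k = d + t := ht
      _ ≤ (a + 1) * t + t := Nat.add_le_add_right h7 t
      _ = (a + 2) * t := by ring
      _ ≤ (a + 2) * (3 * (a + 1)) := Nat.mul_le_mul_left _ h27
      _ = 3 * ((a + 1) * (a + 2)) := by ring
  omega

end Sur46
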