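import Mathlib

/-!
MP_156d3b_nt (the equation n! = m! k!), helper46.

THEOREM. For every r >= 2 the number of k <= x for which there are m > k and n >= m + r with
n! = m! k! is O(x^{1/r}).

IDEA. If k! = (m+1)...(m+d), then for every prime p one of the factors, m + i_p, is divisible by
(almost) the full power p^{v_p(k!)}.  Take a set T of 2 * pi(y) such k in a window [K, K + w], with
lacunary m's, y = 8 K^{1/r}.  Siegel's lemma gives small integers u_k, not all zero, with
sum_k u_k i_p(k) = 0 for all primes p <= y.  Then L = sum_k u_k m_k is divisible by the y-smooth part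
of K!, which is larger than |L|, so L = 0, contradicting lacunarity.
-/

namespace Sur46

open Nat

/-- `k ! = (m+1)(m+2)...(m+d)` with `m > k ≥ 2`. -/
def Sol (k m d : ℕ) : Prop := 2 ≤ k ∧ k < m ∧ (m + d)! = m ! * k !

/-- bound for `d` in the dyadic block of `X` -/
def DD (X : ℕ) : ℕ := 4 * (Nat.log 2 (4 * X)) ^ 2

/-- the primes `p ≤ Y r X` are used in the dyadic block of `X` -/
noncomputable def Y (r X : ℕ) : ℕ := ⌈8 * (4 * (X : ℝ)) ^ ((1 : ℝ) / r)⌉₊

/-- window length in the dyadic block of `X` -/
noncomputable def W (X : ℕ) : ℕ := ⌊(X : ℝ) / Real.log (4 * X)⌋₊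

/-- primes up to `y` -/
def primesTo (y : ℕ) : Finset ℕ := (Finset.range (y + 1)).filter Nat.Prime

end Sur46
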