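import Mathlib

namespace Sur46

/-- PROOF. Put `F x = ∑_{k ≤ x} f k`. For `x ≥ 2 X0 + 2`, with `X = x/2 ≥ X0`: `F x ≤ F X + C (log X)^3`
(as `x ≤ 2X+1`).  By strong induction `F x ≤ F (2 X0 + 2) + C (log x)^3 (Nat.log 2 x + 1)`; finally
`Nat.log 2 x ≤ log x / log 2` and `log x ≥ log 2`. -/
theorem dyadic2 (f : ℕ → ℕ) (C : ℝ) (hC : 0 ≤ C) (X0 : ℕ)
    (h : ∀ X ≥ X0, ((∑ k ∈ Finset.Ioc X (2 * X + 1), f k : ℕ) : ℝ) ≤ C * (Real.log X) ^ 3) :
    ∃ A : ℝ, ∀ x : ℕ, 2 ≤ x → ((∑ k ∈ Finset.range (x + 1), f k : ℕ) : ℝ) ≤ A * (Real.log x) ^ 4 := by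
  classical
  set F : ℕ → ℕ := fun x => ∑ k ∈ Finset.range (x + 1), f k with hF
  have hmono : ∀ x y, x ≤ y → F x ≤ F y := fun x y hxy =>
    Finset.sum_le_sum_of_subset (Finset.range_mono (Nat.succ_le_succ hxy))
  have hstep : ∀ x X, x ≤ 2 * X + 1 → F x ≤ F X + ∑ k ∈ Finset.Ioc X (2 * X + 1), f k := by
    intro x X hx
    have h1 : Disjoint (Finset.range (X + 1)) (Finset.Ioc X (2 * X + 1)) := by
      rw [Finset.disjoint_left]
      intro a ha hb
      rw [Finset.mem_range] at ha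
      rw [Finset.mem_Ioc] at hb
      omega
    show ∑ k ∈ Finset.range (x + 1), f k ≤ ∑ k ∈ Finset.range (X + 1), f k + _
    rw [← Finset.sum_union h1]
    refine Finset.sum_le_sum_of_subset fun a ha => ?_
    rw [Finset.mem_range] at ha
    rw [Finset.mem_union, Finset.mem_range, Finset.mem_Ioc]
    omega
  have key : ∀ x : ℕ, 1 ≤ x → ((F x : ℕ) : ℝ) ≤ (F (2 * X0 + 2) : ℕ) +
      C * (Real.log x) ^ 3 * ((Nat.log 2 x : ℕ) + 1) := by
    intro x
    induction x using Nat.strong_induction_on with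
    | _ x ih =>
      intro hx
      have hlogx : 0 ≤ Real.log x := Real.log_natCast_nonneg x
      by_cases hx0 : x ≤ 2 * X0 + 2
      · have h1 : ((F x : ℕ) : ℝ) ≤ (F (2 * X0 + 2) : ℕ) := by exact_mod_cast hmono _ _ hx0
        have h2 : 0 ≤ C * (Real.log x) ^ 3 * ((Nat.log 2 x : ℕ) + 1) := by positivity
        linarith
      · have hX : X0 ≤ x / 2 := by omega
        have hX1 : 1 ≤ x / 2 := by omega
        have hXx : x / 2 < x := by omega
        have h1 : ((F x : ℕ) : ℝ) ≤ (F (x / 2) : ℕ) +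
            ((∑ k ∈ Finset.Ioc (x / 2) (2 * (x / 2) + 1), f k : ℕ) : ℝ) := by
          exact_mod_cast hstep x (x / 2) (by omega)
        have h2 := h (x / 2) hX
        have h3 := ih (x / 2) hXx hX1
        have h4 : Nat.log 2 x = Nat.log 2 (x / 2) + 1 := by
          rw [Nat.log_div_base]
          have : 0 < Nat.log 2 x := Nat.log_pos (by norm_num) (by omega)
          omega
        have h5 : 0 ≤ Real.log ((x / 2 : ℕ) : ℝ) := Real.log_natCast_nonneg _
        have h6 : Real.log ((x / 2 : ℕ) : ℝ) ≤ Real.log x := by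
          apply Real.log_le_log
          · exact_mod_cast hX1
          · exact_mod_cast hXx.le
        have h7 : Real.log ((x / 2 : ℕ) : ℝ) ^ 3 ≤ Real.log x ^ 3 := pow_le_pow_left₀ h5 h6 3
        have h8 : C * Real.log ((x / 2 : ℕ) : ℝ) ^ 3 ≤ C * Real.log x ^ 3 :=
          mul_le_mul_of_nonneg_left h7 hC
        have h9 : C * Real.log ((x / 2 : ℕ) : ℝ) ^ 3 * ((Nat.log 2 (x / 2) : ℕ) + 1) ≤
            C * Real.log x ^ 3 * ((Nat.log 2 (x / 2) : ℕ) + 1) :=
          mul_le_mul_of_nonneg_right h8 (by positivity)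
        rw [h4]
        push_cast
        nlinarith
  have hl2 : 0 < Real.log 2 := Real.log_pos (by norm_num)
  refine ⟨(F (2 * X0 + 2) : ℕ) / (Real.log 2) ^ 4 + 2 * C / Real.log 2, fun x hx => ?_⟩
  have h1 := key x (by omega)
  have hlx : Real.log 2 ≤ Real.log x := by
    apply Real.log_le_log (by norm_num)
    exact_mod_cast hx
  have hlx0 : 0 < Real.log x := hl2.trans_le hlx
  have h2 : ((Nat.log 2 x : ℕ) : ℝ) * Real.log 2 ≤ Real.log x := by
    have h3 : (2 : ℕ) ^ Nat.log 2 x ≤ x := Nat.pow_log_le_self 2 (by omega)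
    have h4 : ((2 : ℝ)) ^ Nat.log 2 x ≤ x := by exact_mod_cast h3
    have h5 := Real.log_le_log (by positivity) h4
    rwa [Real.log_pow] at h5
  have h3 : ((Nat.log 2 x : ℕ) : ℝ) + 1 ≤ 2 * Real.log x / Real.log 2 := by
    rw [le_div_iff₀ hl2]
    linarith
  have h4 : ((F (2 * X0 + 2) : ℕ) : ℝ) ≤ (F (2 * X0 + 2) : ℕ) / (Real.log 2) ^ 4 * Real.log x ^ 4 := by
    rw [div_mul_eq_mul_div, le_div_iff₀ (by positivity)]
    exact mul_le_mul_of_nonneg_left (pow_le_pow_left₀ hl2.le hlx 4) (by positivity)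
  have h5 : C * (Real.log x) ^ 3 * ((Nat.log 2 x : ℕ) + 1) ≤
      C * (Real.log x) ^ 3 * (2 * Real.log x / Real.log 2) :=
    mul_le_mul_of_nonneg_left h3 (by positivity)
  have h6 : C * (Real.log x) ^ 3 * (2 * Real.log x / Real.log 2) =
      2 * C / Real.log 2 * Real.log x ^ 4 := by
    ring
  have h7 : ((∑ k ∈ Finset.range (x + 1), f k : ℕ) : ℝ) = (F x : ℕ) := rfl
  rw [h7]
  linarith

end Sur46
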