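import Pool.Agent.W_156d3b_h46.Sizes

namespace Sur46

open Nat

theorem Fiber_step {G K δ k k' m m' v : ℕ} (hG : 2 ≤ G) (hGK : 2 * G ≤ K ^ 3) (hK : K ≤ k)
    (h : Sol k m δ) (h' : Sol k' m' δ) (hv : G ^ v ≤ m) (hv' : m' < G ^ (v + 1)) (hkk : k ≤ k') :
    k' < k + 3 * δ := by
  obtain ⟨hδ, hδk⟩ := h'.d_pos_lt
  have hK1 : 1 < K := by
    by_contra hc
    have hK2 : K ≤ 1 := by omega
    have : K ^ 3 ≤ 1 := Nat.pow_le_one_iff (by norm_num) |>.2 hK2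
    omega
  have h1 : (G ^ v) ^ δ ≤ k ! := le_trans (Nat.pow_le_pow_left (by omega) δ) h.pow_le
  have h2 : k ! * K ^ (k' - k) ≤ k' ! := by
    have h3 := Nat.factorial_mul_pow_le_factorial (m := k) (n := k' - k)
    have h4 : k + (k' - k) = k' := by omega
    rw [h4] at h3
    exact le_trans (Nat.mul_le_mul_left _ (Nat.pow_le_pow_left (by omega) _)) h3
  have hm' : k' < m' := h'.2.1
  have h5 : (m' + δ) ^ δ < (2 * G ^ (v + 1)) ^ δ :=
    Nat.pow_lt_pow_left (by omega) (by omega)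
  have h6 : (2 * G ^ (v + 1)) ^ δ ≤ (G ^ v) ^ δ * K ^ (3 * δ) := by
    have h7 : 2 * G ^ (v + 1) = G ^ v * (2 * G) := by ring
    rw [h7, Nat.mul_pow, pow_mul K 3 δ]
    exact Nat.mul_le_mul_left _ (Nat.pow_le_pow_left hGK δ)
  have h8 : (G ^ v) ^ δ * K ^ (k' - k) < (G ^ v) ^ δ * K ^ (3 * δ) :=
    calc (G ^ v) ^ δ * K ^ (k' - k) ≤ k ! * K ^ (k' - k) := Nat.mul_le_mul_right _ h1
      _ ≤ k' ! := h2
      _ ≤ (m' + δ) ^ δ := h'.le_pow
      _ < (2 * G ^ (v + 1)) ^ δ := h5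
      _ ≤ _ := h6
  have h9 : K ^ (k' - k) < K ^ (3 * δ) := lt_of_mul_lt_mul_left h8 (Nat.zero_le _)
  have h10 : k' - k < 3 * δ := (Nat.pow_lt_pow_iff_right hK1).1 h9
  omega

/-- PROOF. Let `k < k'` be two elements of the filtered set `A` and `m = m k`, `m' = m k'`.  Then
`G^v ≤ m`, `m' < G^(v+1)`, `k! ≥ (m+1)^δ ≥ (G^v)^δ`, `k'! ≤ (m'+δ)^δ ≤ (2m')^δ ≤ (2 G^(v+1))^δ` with `δ < k' < m'`
(strict because `δ ≥ 1`), and `k'! ≥ k! * K^(k'-k)` (`Nat.factorial_mul_pow_le_factorial`). So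
`K^(k'-k) (G^v)^δ < (2 G)^δ (G^v)^δ ≤ K^(3δ) (G^v)^δ`, hence `k' - k < 3 δ`.  So `A ⊆ [min A, min A + 3δ)`
and `|A| ≤ 3 δ`. (`Sizes.lean` has the bounds for `k!`.) -/
theorem fiber_card {G K δ : ℕ} (hG : 2 ≤ G) (hGK : 2 * G ≤ K ^ 3) (S : Finset ℕ) (m : ℕ → ℕ)
    (hS : ∀ k ∈ S, K ≤ k ∧ Sol k (m k) δ) (v : ℕ) :
    (S.filter (fun k => Nat.log G (m k) = v)).card ≤ 3 * δ := by
  rcases (S.filter (fun k => Nat.log G (m k) = v)).eq_empty_or_nonempty with he | hne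
  · rw [he]
    exact Nat.zero_le _
  · obtain ⟨k, hk, hmin⟩ := Finset.exists_min_image _ (fun k => k) hne
    have hsub : S.filter (fun k => Nat.log G (m k) = v) ⊆ Finset.Ico k (k + 3 * δ) := by
      intro k' hk'
      have hle : k ≤ k' := hmin k' hk'
      rw [Finset.mem_filter] at hk hk'
      obtain ⟨hkS, hkv⟩ := hk
      obtain ⟨hkS', hkv'⟩ := hk'
      obtain ⟨hK, hsol⟩ := hS k hkS
      obtain ⟨_, hsol'⟩ := hS k' hkS'
      have h1 : 2 ≤ k := hsol.1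
      have h2 : k < m k := hsol.2.1
      have hv : G ^ v ≤ m k := by
        rw [← hkv]
        exact Nat.pow_log_le_self G (by omega)
      have hv' : m k' < G ^ (v + 1) := by
        rw [← hkv']
        exact Nat.lt_pow_succ_log_self (by omega) _
      exact Finset.mem_Ico.2 ⟨hle, Fiber_step hG hGK hK hsol hsol' hv hv' hle⟩
    calc (S.filter (fun k => Nat.log G (m k) = v)).card ≤ (Finset.Ico k (k + 3 * δ)).card :=
          Finset.card_le_card hsub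
      _ = 3 * δ := by rw [Nat.card_Ico]; omega

end Sur46
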