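import Pool.Agent.W_156d3b_h46.Window
import Pool.Agent.W_156d3b_h46.Cover

namespace Sur46

open Nat

theorem sol_of_eq {k m n r : ℕ} (hk : 2 ≤ k) (hkm : k < m) (hmn : m + r ≤ n) (h : n ! = m ! * k !) :
    ∃ d, r ≤ d ∧ Sol k m d := by
  refine ⟨n - m, by omega, hk, hkm, ?_⟩
  rw [show m + (n - m) = n by omega]
  exact h

theorem main (r : ℕ) (hr : 2 ≤ r) : ∃ C : ℝ, ∀ x : ℕ,
    (Set.ncard {k : ℕ | 2 ≤ k ∧ k ≤ x ∧ ∃ n m : ℕ, k < m ∧ m + r ≤ n ∧
      Nat.factorial n = Nat.factorial m * Nat.factorial k} : ℝ) ≤ C * (x : ℝ) ^ ((1 : ℝ) / r) := by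
  classical
  obtain ⟨X1, h1⟩ := windowA r hr
  obtain ⟨X2, h2⟩ := windowB (r + 1) (by omega)
  obtain ⟨C, X3, hC, h3⟩ := asymp r hr
  have hwin : ∀ X ≥ max (max X1 X2) (max X3 1), ∀ K, X ≤ K → K ≤ 3 * X →
      ((Finset.Icc K (K + W X)).filter
        (fun k => 2 ≤ k ∧ ∃ n m : ℕ, k < m ∧ m + r ≤ n ∧ n ! = m ! * k !)).card ≤
        12 * r * (primesTo (Y r X)).card + 12 * (DD X) ^ 2 * (primesTo (Y (r + 1) X)).card := by
    intro X hX K hXK hK3
    have hX1 : X1 ≤ X := le_trans (le_trans (le_max_left _ _) (le_max_left _ _)) hX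
    have hX2 : X2 ≤ X := le_trans (le_trans (le_max_right _ _) (le_max_left _ _)) hX
    have hA := h1 X hX1 K hXK hK3 ((Finset.Icc K (K + W X)).filter (fun k => ∃ m, Sol k m r))
      (Finset.filter_subset _ _) (by intro k hk; exact (Finset.mem_filter.1 hk).2)
    have hB := h2 X hX2 K hXK hK3
      ((Finset.Icc K (K + W X)).filter (fun k => ∃ m d, r + 1 ≤ d ∧ Sol k m d))
      (Finset.filter_subset _ _) (by intro k hk; exact (Finset.mem_filter.1 hk).2)
    refine le_trans ?_ (Nat.add_le_add hA hB)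
    refine le_trans (Finset.card_le_card ?_) (Finset.card_union_le _ _)
    intro k hk
    obtain ⟨hkI, hk2, n, m, hkm, hmn, he⟩ := Finset.mem_filter.1 hk
    obtain ⟨d, hrd, hsol⟩ := sol_of_eq hk2 hkm hmn he
    rw [Finset.mem_union, Finset.mem_filter, Finset.mem_filter]
    rcases Nat.lt_or_ge r d with h | h
    · exact Or.inr ⟨hkI, m, d, h, hsol⟩
    · have : d = r := by omega
      subst this
      exact Or.inl ⟨hkI, m, hsol⟩
  obtain ⟨A, hA⟩ := dyadic (fun k => 2 ≤ k ∧ ∃ n m : ℕ, k < m ∧ m + r ≤ n ∧ n ! = m ! * k !)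
    (by intro h; omega) r hr C hC (max (max X1 X2) (max X3 1))
    (by
      intro X hX
      have hX3 : X3 ≤ X := le_trans (le_trans (le_max_left _ _) (le_max_right _ _)) hX
      have hX4 : 1 ≤ X := le_trans (le_trans (le_max_right _ _) (le_max_right _ _)) hX
      refine le_trans ?_ (h3 X hX3)
      exact_mod_cast cover _ X (W X) _ hX4 (fun K hK hK3 => hwin X hX K hK hK3))
  refine ⟨A, fun x => ?_⟩
  refine le_trans ?_ (hA x)
  have : {k : ℕ | 2 ≤ k ∧ k ≤ x ∧ ∃ n m : ℕ, k < m ∧ m + r ≤ n ∧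
      Nat.factorial n = Nat.factorial m * Nat.factorial k} =
      (((Finset.range (x + 1)).filter
        (fun k => 2 ≤ k ∧ ∃ n m : ℕ, k < m ∧ m + r ≤ n ∧ n ! = m ! * k !) : Finset ℕ) : Set ℕ) := by
    ext k
    simp only [Set.mem_setOf_eq, Finset.coe_filter, Finset.mem_range]
    constructor
    · rintro ⟨a, b, c⟩
      exact ⟨by omega, a, c⟩
    · rintro ⟨a, b, c⟩
      exact ⟨b, by omega, c⟩
  rw [this, Set.ncard_coe_finset]

/-- a solution outside the trivial family has `n ≥ m + 2` -/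
theorem nontrivial_gap {k m n : ℕ} (hk : 2 ≤ k)
    (h : Nat.factorial n = Nat.factorial m * Nat.factorial k)
    (hnt : ¬ (n = Nat.factorial k ∧ m = Nat.factorial k - 1)) : m + 2 ≤ n := by
  by_contra hcon
  push Not at hcon
  have hk2 : 2 ≤ k ! := by
    calc 2 = 2 ! := rfl
      _ ≤ k ! := Nat.factorial_le hk
  have hmpos := Nat.factorial_pos m
  rcases Nat.lt_or_ge m n with h1 | h1
  · have hn : n = m + 1 := by omega
    subst hn
    rw [Nat.factorial_succ, mul_comm] at h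
    have h3 : m + 1 = k ! := Nat.eq_of_mul_eq_mul_left hmpos h
    exact hnt ⟨h3, by omega⟩
  · have h4 := Nat.factorial_le h1
    nlinarith

theorem main' : ∃ C : ℝ, ∀ x : ℕ,
    (Set.ncard {k : ℕ | 2 ≤ k ∧ k ≤ x ∧ ∃ n m : ℕ, k < m ∧
      Nat.factorial n = Nat.factorial m * Nat.factorial k ∧
      ¬ (n = Nat.factorial k ∧ m = Nat.factorial k - 1)} : ℝ) ≤ C * Real.sqrt x := by
  obtain ⟨C, hC⟩ := main 2 le_rfl
  refine ⟨C, fun x => ?_⟩
  have h1 := hC x
  rw [Real.sqrt_eq_rpow]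
  have e : ((1 : ℝ) / ((2 : ℕ) : ℝ)) = 1 / 2 := by norm_num
  rw [e] at h1
  refine le_trans ?_ h1
  have hfin : Set.Finite {k : ℕ | 2 ≤ k ∧ k ≤ x ∧ ∃ n m : ℕ, k < m ∧ m + 2 ≤ n ∧
      Nat.factorial n = Nat.factorial m * Nat.factorial k} :=
    (Set.finite_Iic x).subset (fun k hk => hk.2.1)
  have hle := Set.ncard_le_ncard (s := {k : ℕ | 2 ≤ k ∧ k ≤ x ∧ ∃ n m : ℕ, k < m ∧
      Nat.factorial n = Nat.factorial m * Nat.factorial k ∧
      ¬ (n = Nat.factorial k ∧ m = Nat.factorial k - 1)}) (by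
    rintro k ⟨hk2, hx, n, m, hkm, he, hnt⟩
    exact ⟨hk2, hx, n, m, hkm, nontrivial_gap hk2 he hnt, he⟩) hfin
  exact_mod_cast hle

end Sur46
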