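import Pool.Agent.W_156d3b_h46.WinP
import Pool.Agent.W_156d3b_h46.Cover
import Pool.Agent.W_156d3b_h46.Dyadic2

namespace Sur46

open Nat

/-- all `δ` with a solution for `k` are in `[2, D2 X]` for `k` in the block of `X` -/
theorem g_eq {k X K0 : ℕ} (h0 : ∀ k ≥ K0, ∀ m d : ℕ, Sol k m d → d ≤ 4 * (Nat.log 2 k + 1))
    (hX : 1 ≤ X) (hk0 : K0 ≤ k) (hk : k ≤ 2 * X + 1) [DecidablePred fun δ => ∃ m, Sol k m δ] :
    g k = ((Finset.Icc 2 (D2 X)).filter (fun δ => ∃ m, Sol k m δ)).card := by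
  unfold g
  rw [← Set.ncard_coe_finset]
  congr 1
  ext δ
  simp only [Set.mem_setOf_eq, Finset.coe_filter, Finset.mem_Icc]
  constructor
  · rintro ⟨a, m, hm⟩
    refine ⟨⟨a, ?_⟩, m, hm⟩
    have h1 := h0 k hk0 m δ hm
    have h2 : Nat.log 2 k ≤ Nat.log 2 (4 * X) := Nat.log_mono_right (by omega)
    unfold D2
    omega
  · rintro ⟨⟨a, _⟩, m, hm⟩
    exact ⟨a, m, hm⟩

theorem blockP : ∃ C : ℝ, ∃ X0 : ℕ, 0 ≤ C ∧ ∀ X ≥ X0,
    ((∑ k ∈ Finset.Ioc X (2 * X + 1), g k : ℕ) : ℝ) ≤ C * (Real.log X) ^ 3 := by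
  classical
  obtain ⟨X1, hX12, h1⟩ := windowP
  obtain ⟨K0, h0⟩ := d_bound2
  obtain ⟨C, X3, hC, h3⟩ := asymp2
  refine ⟨C, max (max X1 K0) X3, hC, ?_⟩
  intro X hX
  have hX1 : X1 ≤ X := le_trans (le_trans (le_max_left _ _) (le_max_left _ _)) hX
  have hK0 : K0 ≤ X := le_trans (le_trans (le_max_right _ _) (le_max_left _ _)) hX
  have hX3 : X3 ≤ X := le_trans (le_max_right _ _) hX
  have hX2 : 2 ≤ X := le_trans hX12 hX1
  refine le_trans ?_ (h3 X hX3)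
  rw [← Nat.cast_sum]
  apply Nat.cast_le.2
  have e1 : ∑ k ∈ Finset.Ioc X (2 * X + 1), g k =
      ∑ k ∈ Finset.Ioc X (2 * X + 1), ∑ δ ∈ Finset.Icc 2 (D2 X), if (∃ m, Sol k m δ) then 1 else 0 := by
    apply Finset.sum_congr rfl
    intro k hk
    have hI := Finset.mem_Ioc.1 hk
    rw [g_eq h0 (by omega) (by omega) hI.2, Finset.card_filter]
  rw [e1, Finset.sum_comm]
  apply Finset.sum_le_sum
  intro δ hδ
  have hδ' := Finset.mem_Icc.1 hδ
  rw [← Finset.card_filter]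
  apply cover (fun k => ∃ m, Sol k m δ) X (W2 δ X) _ (by omega)
  intro K hK hK3
  apply h1 X hX1 K hK hK3 δ hδ'.1 hδ'.2 _ (Finset.filter_subset _ _)
  intro k hk
  exact (Finset.mem_filter.1 hk).2

theorem mainP : ∃ A : ℝ, ∀ x : ℕ, 2 ≤ x →
    ((∑ k ∈ Finset.range (x + 1), g k : ℕ) : ℝ) ≤ A * (Real.log x) ^ 4 := by
  obtain ⟨C, X0, hC, h⟩ := blockP
  exact dyadic2 g C hC X0 h

/-- a solution outside the trivial family has `n ≥ m + 2` -/
theorem gap_ge_two {k m n : ℕ} (hk : 2 ≤ k)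
    (h : Nat.factorial n = Nat.factorial m * Nat.factorial k)
    (hnt : ¬ (n = Nat.factorial k ∧ m = Nat.factorial k - 1)) : m + 2 ≤ n := by
  by_contra hcon
  push Not at hcon
  have hk2 : 2 ≤ k ! := by
    calc 2 = 2 ! := rfl
      _ ≤ k ! := Nat.factorial_le hk
  have hmpos := Nat.factorial_pos m
  rcases Nat.lt_or_ge m n with h1 | h1
  · have hn : n = m + 1 := by omega
    subst hn
    rw [Nat.factorial_succ, mul_comm] at h
    have h3 : m + 1 = k ! := Nat.eq_of_mul_eq_mul_left hmpos h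
    exact hnt ⟨h3, by omega⟩
  · have h4 := Nat.factorial_le h1
    nlinarith

/-- nontrivial solutions `(n, m, k)` with `k ≤ x`: finiteness and number -/
theorem triples_le (x : ℕ) (A : Set (ℕ × ℕ × ℕ)) (hA : A = {t : ℕ × ℕ × ℕ | ∃ n m k : ℕ,
      t = (n, m, k) ∧ 2 ≤ k ∧ k ≤ x ∧ k < m ∧
      Nat.factorial n = Nat.factorial m * Nat.factorial k ∧
      ¬ (n = Nat.factorial k ∧ m = Nat.factorial k - 1)}) :
    A.Finite ∧ A.ncard ≤ ∑ k ∈ Finset.range (x + 1), g k := by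
  classical
  let F : Finset (ℕ × ℕ) := (Finset.range (x + 1) ×ˢ Finset.range (x + 1)).filter
    (fun q => 2 ≤ q.2 ∧ ∃ m, Sol q.1 m q.2)
  let ph : ℕ × ℕ × ℕ → ℕ × ℕ := fun t => (t.2.2, t.1 - t.2.1)
  have hsol : ∀ t ∈ A, Sol t.2.2 t.2.1 (t.1 - t.2.1) ∧ t.2.1 + 2 ≤ t.1 ∧ t.2.2 ≤ x := by
    rintro t ht
    rw [hA] at ht
    obtain ⟨n, m, k, rfl, hk, hx, hkm, he, hnt⟩ := ht
    have hgap := gap_ge_two hk he hnt
    refine ⟨⟨hk, hkm, ?_⟩, hgap, hx⟩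
    have e2 : m + (n - m) = n := by omega
    show Nat.factorial (m + (n - m)) = Nat.factorial m * Nat.factorial k
    rw [e2]
    exact he
  have hmaps : ∀ t ∈ A, ph t ∈ (F : Set (ℕ × ℕ)) := by
    intro t ht
    obtain ⟨hs, hgap, hx⟩ := hsol t ht
    have hlt := hs.d_pos_lt.2
    simp only [F, ph, Finset.coe_filter, Finset.mem_product, Finset.mem_range]
    refine ⟨⟨?_, ?_⟩, ?_, t.2.1, hs⟩ <;> show _ <;> simp only <;> omega
  have hinj : Set.InjOn ph A := by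
    intro t ht t' ht' heq
    obtain ⟨hs, hgap, _⟩ := hsol t ht
    obtain ⟨hs', hgap', _⟩ := hsol t' ht'
    have h1 : t.2.2 = t'.2.2 := congrArg Prod.fst heq
    have h2 : t.1 - t.2.1 = t'.1 - t'.2.1 := congrArg Prod.snd heq
    rw [← h1, ← h2] at hs'
    have h3 : t.2.1 = t'.2.1 := Sol.m_unique hs hs'
    have h4 : t.1 = t'.1 := by omega
    exact Prod.ext h4 (Prod.ext h3 h1)
  refine ⟨Set.Finite.of_injOn hmaps hinj (Finset.finite_toSet F), ?_⟩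
  have hle : A.ncard ≤ F.card := by
    rw [← Set.ncard_coe_finset F]
    exact Set.ncard_le_ncard_of_injOn ph hmaps hinj (Finset.finite_toSet F)
  refine le_trans hle ?_
  have hFsum : F.card = ∑ k ∈ Finset.range (x + 1), (F.filter (fun q => q.1 = k)).card := by
    apply Finset.card_eq_sum_card_fiberwise
    intro q hq
    have := (Finset.mem_product.1 (Finset.mem_filter.1 hq).1).1
    exact this
  rw [hFsum]
  apply Finset.sum_le_sum
  intro k hk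
  unfold g
  have hfin : Set.Finite {δ : ℕ | 2 ≤ δ ∧ ∃ m, Sol k m δ} := by
    apply (Set.finite_Iio k).subset
    rintro δ ⟨_, m, hm⟩
    exact hm.d_pos_lt.2
  rw [← Set.ncard_coe_finset]
  apply Set.ncard_le_ncard_of_injOn (fun q => q.2) _ _ hfin
  · intro q hq
    simp only [F, Finset.coe_filter, Finset.mem_filter] at hq
    obtain ⟨⟨_, h2, m, hm⟩, rfl⟩ := hq
    exact ⟨h2, m, hm⟩
  · intro q hq q' hq' heq
    simp only [Finset.coe_filter] at hq hq'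
    exact Prod.ext (hq.2.trans hq'.2.symm) heq

theorem final : ∃ C : ℝ, ∀ x : ℕ, 2 ≤ x → ∀ A : Set (ℕ × ℕ × ℕ),
    A = {t : ℕ × ℕ × ℕ | ∃ n m k : ℕ,
      t = (n, m, k) ∧ 2 ≤ k ∧ k ≤ x ∧ k < m ∧
      Nat.factorial n = Nat.factorial m * Nat.factorial k ∧
      ¬ (n = Nat.factorial k ∧ m = Nat.factorial k - 1)} →
    A.Finite ∧ (A.ncard : ℝ) ≤ C * (Real.log x) ^ 4 := by
  obtain ⟨C, h⟩ := mainP
  refine ⟨C, fun x hx A hA => ?_⟩
  obtain ⟨h1, h2⟩ := triples_le x A hA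
  refine ⟨h1, le_trans ?_ (h x hx)⟩
  exact_mod_cast h2

end Sur46
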