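import Pool.Agent.W_156d3b_h46.Defs

/-!
SECOND (stronger) THEOREM: the number of (k, m, n) with k <= x, m > k, n >= m + 2, n! = m! k! is
O((log x)^4).

IDEA. Fix `δ = n - m`, a window `[K, K + w]`, `w = δ K / (16 log 4K)`, and solutions k in the window for
which the index `i_2(k)` (the factor `m + i` with the full power of 2) is the same.  For k < k' the product of
the `p^{v_p(K!)}` over the primes p with `i_p(k) = i_p(k')` divides `(m' - m) E`, `E = ((δ-1)!)^(δ-1)`, so
the agreement weight is at most `log m' + log E ≤ (1/δ) log K! + K/16 + K/16`. On average (Plotkin) the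
agreement weight of N vectors in `{1..δ}^primes` which agree at p = 2 is at least
`(1/δ) log K! + (1 - 1/δ) (log 2) v_2(K!) - log K!/N`.  So `N ≤ 8 log (4K)`.
-/

namespace Sur46

open Nat

/-- bound for `d` in the dyadic block of `X` -/
def D2 (X : ℕ) : ℕ := 4 * (Nat.log 2 (4 * X) + 1)

/-- window length in the dyadic block of `X` -/
noncomputable def W2 (δ X : ℕ) : ℕ := ⌊(δ * X : ℝ) / (16 * Real.log (4 * X))⌋₊

/-- weight of the prime `p` -/
noncomputable def wt (K p : ℕ) : ℝ := ((K !).factorization p : ℝ) * Real.log p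

/-- number of `δ ≥ 2` for which `k` has a solution with `n - m = δ` -/
noncomputable def g (k : ℕ) : ℕ := Set.ncard {δ : ℕ | 2 ≤ δ ∧ ∃ m, Sol k m δ}

end Sur46
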