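import Pool.Agent.W_156d3b_h46.PDefs

namespace Sur46

open Nat

theorem Pair_asc_le {a b : ℕ} (hab : a ≤ b) (k : ℕ) : a.ascFactorial k ≤ b.ascFactorial k := by
  induction k with
  | zero => simp
  | succ k ih =>
    rw [Nat.ascFactorial_succ, Nat.ascFactorial_succ]
    exact Nat.mul_le_mul (by omega) ih

theorem Pair_asc_lt {a b k : ℕ} (hab : a < b) (hk : 1 ≤ k) :
    (a + 1).ascFactorial k < (b + 1).ascFactorial k := by
  obtain ⟨k, rfl⟩ := Nat.exists_eq_succ_of_ne_zero (by omega : k ≠ 0)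
  rw [Nat.succ_eq_add_one, Nat.ascFactorial_succ, Nat.ascFactorial_succ]
  exact Nat.mul_lt_mul_of_lt_of_le (by omega) (Pair_asc_le (by omega) k) (Nat.ascFactorial_pos b k)

theorem Pair_asc {k m d : ℕ} (h : Sol k m d) : (m + 1).ascFactorial d = k ! := by
  have h1 : m ! * (m + 1).ascFactorial d = (m + d)! := Nat.factorial_mul_ascFactorial m d
  rw [h.2.2] at h1
  exact Nat.eq_of_mul_eq_mul_left (Nat.factorial_pos m) h1

/-- PROOF. Let `A = (primesTo K).filter (j p = j' p)` and `v = (K!).factorization`. For `p ∈ A` the power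
`p^(v p)` divides `K!` (`Nat.ordProj_dvd`), hence both `(m + j p) E` and `(m' + j p) E`, hence `(m' - m) E`. The
`p^(v p)` are pairwise coprime, so `∏_{p ∈ A} p^(v p)` divides `(m' - m) E`
(`Finset.prod_dvd_of_coprime` or `Nat.Coprime` version), so it is `≤ (m' - m) E ≤ m' E`; take logs. -/
theorem pair_le {K m m' E : ℕ} (hE : 0 < E) (hmm : m < m') (j j' : ℕ → ℕ)
    (hj : ∀ p, p.Prime → ∀ e, p ^ e ∣ K ! → p ^ e ∣ (m + j p) * E)
    (hj' : ∀ p, p.Prime → ∀ e, p ^ e ∣ K ! → p ^ e ∣ (m' + j' p) * E) :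
    ∑ p ∈ (primesTo K).filter (fun p => j p = j' p), wt K p ≤ Real.log m' + Real.log E := by
  set A := (primesTo K).filter (fun p => j p = j' p) with hA
  have hAp : ∀ p ∈ A, p.Prime ∧ j p = j' p := by
    intro p hp
    rw [hA, Finset.mem_filter, primesTo, Finset.mem_filter] at hp
    exact ⟨hp.1.2, hp.2⟩
  have hdvd : ∏ p ∈ A, p ^ (K !).factorization p ∣ (m' - m) * E := by
    refine Finset.prod_dvd_of_isRelPrime ?_ ?_
    · intro p hp q hq hpq
      change IsRelPrime (p ^ (K !).factorization p) (q ^ (K !).factorization q)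
      rw [← Nat.coprime_iff_isRelPrime]
      exact Nat.Coprime.pow _ _
        ((Nat.coprime_primes (hAp p hp).1 (hAp q hq).1).2 hpq)
    · intro p hp
      obtain ⟨hpp, hjj⟩ := hAp p hp
      have h0 : p ^ (K !).factorization p ∣ K ! := Nat.ordProj_dvd _ _
      have h1 := hj p hpp _ h0
      have h2 := hj' p hpp _ h0
      have h3 := Nat.dvd_sub h2 h1
      rw [← Nat.sub_mul] at h3
      have h4 : m' + j' p - (m + j p) = m' - m := by omega
      rwa [h4] at h3
  have hle : ∏ p ∈ A, p ^ (K !).factorization p ≤ m' * E :=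
    (Nat.le_of_dvd (Nat.mul_pos (by omega) hE) hdvd).trans (Nat.mul_le_mul_right _ (Nat.sub_le _ _))
  have hsum : ∑ p ∈ A, wt K p =
      Real.log ((∏ p ∈ A, p ^ (K !).factorization p : ℕ) : ℝ) := by
    rw [Nat.cast_prod, Real.log_prod]
    · refine Finset.sum_congr rfl fun p _ => ?_
      rw [wt, Nat.cast_pow, Real.log_pow]
    · intro p hp
      have := (hAp p hp).1.pos
      positivity
  have hm' : (0 : ℝ) < m' := by exact_mod_cast (by omega : 0 < m')
  have hE' : (0 : ℝ) < E := by exact_mod_cast hE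
  rw [hsum, ← Real.log_mul hm'.ne' hE'.ne']
  refine Real.log_le_log ?_ (by exact_mod_cast hle)
  have : 0 < ∏ p ∈ A, p ^ (K !).factorization p :=
    Finset.prod_pos fun p hp => Nat.pow_pos (hAp p hp).1.pos
  exact_mod_cast this

/-- PROOF. Otherwise `m' ≤ m` and `k'! = (m'+1)...(m'+δ) ≤ (m+1)...(m+δ) = k! < k'!`. -/
theorem Sol.m_lt {k k' m m' δ : ℕ} (h : Sol k m δ) (h' : Sol k' m' δ) (hk : k < k') : m < m' := by
  by_contra hcon
  have h1 : k' ! ≤ k ! := by
    rw [← Pair_asc h', ← Pair_asc h]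
    exact Pair_asc_le (by omega) δ
  have h2 : k ! < k' ! := (Nat.factorial_lt (by have := h.1; omega)).2 hk
  omega

/-- PROOF. If `m < m'` then `k! = (m+1)...(m+δ) < (m'+1)...(m'+δ) = k!` (`δ ≥ 1`). -/
theorem Sol.m_unique {k m m' δ : ℕ} (h : Sol k m δ) (h' : Sol k m' δ) : m = m' := by
  have hδ : 1 ≤ δ := by
    rcases Nat.eq_zero_or_pos δ with hd | hd
    · exfalso
      subst hd
      have h1 := Pair_asc h
      rw [Nat.ascFactorial_zero] at h1
      have h2 : 2 ! ≤ k ! := Nat.factorial_le h.1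
      have h3 : 2 ! = 2 := rfl
      omega
    · exact hd
  have h1 := Pair_asc h
  have h2 := Pair_asc h'
  rcases lt_trichotomy m m' with h3 | h3 | h3
  · have := Pair_asc_lt h3 hδ
    omega
  · exact h3
  · have := Pair_asc_lt h3 hδ
    omega

end Sur46
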