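import Mathlib

namespace Sur46

theorem Plotkin_cs (S : Finset ℕ) (g : ℕ → ℕ) (δ : ℕ) (hδ : 1 ≤ δ)
    (hg : ∀ k ∈ S, 1 ≤ g k ∧ g k ≤ δ) :
    (S.card : ℝ) ^ 2 / δ ≤ ∑ k ∈ S, ∑ k' ∈ S, (if g k = g k' then (1 : ℝ) else 0) := by
  have hmaps : ∀ k ∈ S, g k ∈ Finset.Icc 1 δ := fun k hk => Finset.mem_Icc.2 (hg k hk)
  have h1 : ∀ k, ∑ k' ∈ S, (if g k = g k' then (1 : ℝ) else 0) =
      ((S.filter (fun k' => g k' = g k)).card : ℝ) := by
    intro k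
    rw [Finset.card_filter]
    push_cast
    exact Finset.sum_congr rfl fun k' _ => by simp [eq_comm]
  have h2 : ∑ k ∈ S, ∑ k' ∈ S, (if g k = g k' then (1 : ℝ) else 0) =
      ∑ c ∈ Finset.Icc 1 δ, ((S.filter (fun k' => g k' = c)).card : ℝ) ^ 2 := by
    rw [Finset.sum_congr rfl fun k _ => h1 k, ← Finset.sum_fiberwise_of_maps_to hmaps]
    refine Finset.sum_congr rfl fun c _ => ?_
    rw [Finset.sum_congr rfl (g := fun _ => ((S.filter (fun k' => g k' = c)).card : ℝ)),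
      Finset.sum_const, nsmul_eq_mul, sq]
    intro k hk
    rw [(Finset.mem_filter.1 hk).2]
  have h3 : (S.card : ℝ) = ∑ c ∈ Finset.Icc 1 δ, ((S.filter (fun k' => g k' = c)).card : ℝ) := by
    exact_mod_cast Finset.card_eq_sum_card_fiberwise hmaps
  have h4 := sq_sum_le_card_mul_sum_sq (s := Finset.Icc 1 δ)
    (f := fun c => ((S.filter (fun k' => g k' = c)).card : ℝ))
  rw [← h3, ← h2, Nat.card_Icc, Nat.add_sub_cancel] at h4
  have hδ' : (0 : ℝ) < δ := by exact_mod_cast hδ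
  rw [div_le_iff₀ hδ', mul_comm]
  exact h4

/-- PROOF. Let `N = |S|`, `T = ∑_{p ∈ P} w p`. For every `p ∈ P` the number of ordered pairs `(k,k') ∈ S × S` with
`i p k = i p k'` is `∑_{c ∈ {1..δ}} n_c^2 ≥ N^2/δ` (Cauchy-Schwarz, `sq_sum_le_card_mul_sum_sq` /
`Finset.card_eq_sum_card_fiberwise`), and it is `N^2` for `p = p0`.  So
`∑_{k,k'} ∑_{p : i p k = i p k'} w p ≥ (N^2/δ) T + N^2 (1 - 1/δ) w p0`, while the left side is at most
`N T` (diagonal) plus `(N^2 - N) B`. -/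
theorem plotkin (P S : Finset ℕ) (i : ℕ → ℕ → ℕ) (δ : ℕ) (hδ : 1 ≤ δ) (w : ℕ → ℝ)
    (hw : ∀ p ∈ P, 0 ≤ w p) (hi : ∀ p ∈ P, ∀ k ∈ S, 1 ≤ i p k ∧ i p k ≤ δ)
    (p0 : ℕ) (hp0 : p0 ∈ P) (hagree : ∀ k ∈ S, ∀ k' ∈ S, i p0 k = i p0 k') (B : ℝ)
    (hB : ∀ k ∈ S, ∀ k' ∈ S, k ≠ k' → ∑ p ∈ P.filter (fun p => i p k = i p k'), w p ≤ B) :
    (S.card : ℝ) ^ 2 / δ * ∑ p ∈ P, w p + (S.card : ℝ) ^ 2 * (1 - 1 / δ) * w p0 ≤
      S.card * ∑ p ∈ P, w p + ((S.card : ℝ) ^ 2 - S.card) * B := by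
  have hδ' : (0 : ℝ) < δ := by exact_mod_cast hδ
  -- the weighted number of agreeing pairs
  have hup : ∑ k ∈ S, ∑ k' ∈ S, ∑ p ∈ P, (if i p k = i p k' then w p else 0) ≤
      S.card * ∑ p ∈ P, w p + ((S.card : ℝ) ^ 2 - S.card) * B := by
    have h1 : ∀ k ∈ S, ∑ k' ∈ S, ∑ p ∈ P, (if i p k = i p k' then w p else 0) ≤
        ∑ p ∈ P, w p + ((S.card : ℝ) - 1) * B := by
      intro k hk
      rw [← Finset.add_sum_erase S _ hk]
      refine add_le_add (le_of_eq ?_) ?_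
      · exact Finset.sum_congr rfl fun p _ => if_pos rfl
      · have h2 : ∑ k' ∈ S.erase k, ∑ p ∈ P, (if i p k = i p k' then w p else 0) ≤
            ∑ _k' ∈ S.erase k, B := by
          refine Finset.sum_le_sum fun k' hk' => ?_
          rw [Finset.mem_erase] at hk'
          rw [← Finset.sum_filter]
          exact hB k hk k' hk'.2 hk'.1.symm
        refine h2.trans (le_of_eq ?_)
        rw [Finset.sum_const, nsmul_eq_mul, Finset.card_erase_of_mem hk,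
          Nat.cast_sub (Finset.card_pos.2 ⟨k, hk⟩), Nat.cast_one]
    refine (Finset.sum_le_sum h1).trans (le_of_eq ?_)
    rw [Finset.sum_const, nsmul_eq_mul]
    ring
  have hsw : ∑ k ∈ S, ∑ k' ∈ S, ∑ p ∈ P, (if i p k = i p k' then w p else 0) =
      ∑ p ∈ P, w p * ∑ k ∈ S, ∑ k' ∈ S, (if i p k = i p k' then (1 : ℝ) else 0) := by
    rw [Finset.sum_congr rfl fun k _ => Finset.sum_comm, Finset.sum_comm]
    refine Finset.sum_congr rfl fun p _ => ?_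
    rw [Finset.mul_sum]
    refine Finset.sum_congr rfl fun k _ => ?_
    rw [Finset.mul_sum]
    refine Finset.sum_congr rfl fun k' _ => ?_
    rw [mul_ite, mul_one, mul_zero]
  have he0 : ∑ k ∈ S, ∑ k' ∈ S, (if i p0 k = i p0 k' then (1 : ℝ) else 0) =
      (S.card : ℝ) ^ 2 := by
    rw [Finset.sum_congr rfl fun k hk => Finset.sum_congr rfl fun k' hk' =>
      if_pos (hagree k hk k' hk')]
    rw [Finset.sum_const, Finset.sum_const, nsmul_eq_mul, nsmul_eq_mul]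
    ring
  refine le_trans ?_ hup
  rw [hsw, ← Finset.add_sum_erase P w hp0, ← Finset.add_sum_erase P (fun p => w p *
    ∑ k ∈ S, ∑ k' ∈ S, (if i p k = i p k' then (1 : ℝ) else 0)) hp0]
  simp only [he0]
  have h5 : ∑ p ∈ P.erase p0, w p * ((S.card : ℝ) ^ 2 / δ) ≤
      ∑ p ∈ P.erase p0, w p * ∑ k ∈ S, ∑ k' ∈ S, (if i p k = i p k' then (1 : ℝ) else 0) := by
    refine Finset.sum_le_sum fun p hp => ?_
    have hp' := Finset.mem_of_mem_erase hp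
    exact mul_le_mul_of_nonneg_left (Plotkin_cs S (i p) δ hδ (hi p hp')) (hw p hp')
  rw [← Finset.sum_mul] at h5
  have h6 : (S.card : ℝ) ^ 2 / δ * (w p0 + ∑ p ∈ P.erase p0, w p) +
      (S.card : ℝ) ^ 2 * (1 - 1 / δ) * w p0 =
      w p0 * (S.card : ℝ) ^ 2 + (∑ p ∈ P.erase p0, w p) * ((S.card : ℝ) ^ 2 / δ) := by
    field_simp
    ring
  rw [h6]
  linarith

end Sur46
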