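import Pool.Agent.W_156d3b_h46.PDefs

namespace Sur46

open Nat

/-- Real bound for `D2`. -/
theorem Small2_D2 {X δ : ℕ} (hX : 2 ≤ X) (hδ : δ ≤ D2 X) :
    (δ : ℝ) ≤ 16 * Real.log (4 * X) := by
  have hX' : (2 : ℝ) ≤ X := by exact_mod_cast hX
  have h1 : (δ : ℝ) ≤ 4 * ((Nat.log 2 (4 * X) : ℕ) + 1) := by
    have : ((δ : ℕ) : ℝ) ≤ ((D2 X : ℕ) : ℝ) := by exact_mod_cast hδ
    refine this.trans (le_of_eq ?_)
    unfold D2
    push_cast
    ring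
  have h2 : (2 : ℝ) ^ (Nat.log 2 (4 * X)) ≤ 4 * X := by
    have : 2 ^ Nat.log 2 (4 * X) ≤ 4 * X := Nat.pow_log_le_self 2 (by omega)
    exact_mod_cast this
  have h3 : (Nat.log 2 (4 * X) : ℝ) * Real.log 2 ≤ Real.log (4 * X) := by
    rw [← Real.log_pow]
    exact Real.log_le_log (by positivity) h2
  have h4 : 0.6931471803 < Real.log 2 := Real.log_two_gt_d9
  have h5 : 2 * Real.log 2 ≤ Real.log (4 * X) := by
    have : Real.log 4 = 2 * Real.log 2 := by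
      rw [show (4 : ℝ) = 2 ^ 2 by norm_num, Real.log_pow]
      norm_num
    rw [← this]
    exact Real.log_le_log (by norm_num) (by linarith)
  nlinarith [Nat.cast_nonneg (α := ℝ) (Nat.log 2 (4 * X))]

/-- The factorials. -/
theorem Small2_fac {δ : ℕ} : Real.log ((((δ - 1)!) ^ (δ - 1) : ℕ) : ℝ) ≤ (δ : ℝ) ^ 3 := by
  rcases Nat.eq_zero_or_pos (δ - 1) with h0 | h0
  · rw [h0]
    simp
  have h1 : (δ - 1)! ≤ (δ - 1) ^ (δ - 1) := Nat.factorial_le_pow _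
  have h2 : Real.log ((δ - 1)! : ℝ) ≤ ((δ - 1 : ℕ) : ℝ) * ((δ - 1 : ℕ) : ℝ) := by
    have h3 : Real.log ((δ - 1)! : ℝ) ≤ Real.log ((((δ - 1) ^ (δ - 1) : ℕ)) : ℝ) :=
      Real.log_le_log (by exact_mod_cast Nat.factorial_pos _) (by exact_mod_cast h1)
    refine h3.trans ?_
    rw [Nat.cast_pow, Real.log_pow]
    refine mul_le_mul_of_nonneg_left ?_ (Nat.cast_nonneg _)
    have := Real.log_le_sub_one_of_pos (x := ((δ - 1 : ℕ) : ℝ)) (by exact_mod_cast h0)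
    linarith
  rw [Nat.cast_pow, Real.log_pow]
  have h4 : ((δ - 1 : ℕ) : ℝ) ≤ δ := by exact_mod_cast Nat.sub_le _ _
  have h5 : (0 : ℝ) ≤ ((δ - 1 : ℕ) : ℝ) := Nat.cast_nonneg _
  calc ((δ - 1 : ℕ) : ℝ) * Real.log ((δ - 1)! : ℝ)
      ≤ ((δ - 1 : ℕ) : ℝ) * (((δ - 1 : ℕ) : ℝ) * ((δ - 1 : ℕ) : ℝ)) :=
        mul_le_mul_of_nonneg_left h2 h5
    _ = ((δ - 1 : ℕ) : ℝ) ^ 3 := by ring
    _ ≤ (δ : ℝ) ^ 3 := pow_le_pow_left₀ h5 h4 3

/-- PROOF. `δ ≤ D2 X = O(log X)`, `log E ≤ δ^2 log δ`; and `W2 δ X ≤ D2 X * X / (16 log 4X) ≤ X` because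
`D2 X ≤ 4 (log(4X)/log 2 + 1) ≤ 5.8 log (4X) + 4 ≤ 16 log (4X)`. -/
theorem small2 : ∃ X0 : ℕ, 2 ≤ X0 ∧ ∀ X ≥ X0, ∀ δ ≤ D2 X,
    Real.log ((((δ - 1)!) ^ (δ - 1) : ℕ) : ℝ) ≤ (X : ℝ) / 16 ∧ W2 δ X ≤ X := by
  have hlo := (Real.isLittleO_pow_log_id_atTop (n := 3)).bound
    (show (0 : ℝ) < 1 / (4 * 16 * 4096) by norm_num)
  rw [Filter.eventually_atTop] at hlo
  obtain ⟨x0, hx0⟩ := hlo
  obtain ⟨N, hN⟩ := exists_nat_ge x0
  refine ⟨max 2 N, le_max_left _ _, ?_⟩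
  intro X hX δ hδ
  have hX2 : 2 ≤ X := le_trans (le_max_left _ _) hX
  have hXN : N ≤ X := le_trans (le_max_right _ _) hX
  have hX' : (2 : ℝ) ≤ X := by exact_mod_cast hX2
  have hd : (δ : ℝ) ≤ 16 * Real.log (4 * X) := Small2_D2 hX2 hδ
  have hL : 0 < Real.log (4 * (X : ℝ)) := Real.log_pos (by linarith)
  constructor
  · refine Small2_fac.trans ?_
    have h1 : x0 ≤ 4 * (X : ℝ) := by
      have : (N : ℝ) ≤ X := by exact_mod_cast hXN
      linarith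
    have h2 := hx0 _ h1
    simp only [Real.norm_eq_abs, id] at h2
    rw [abs_of_nonneg (by positivity), abs_of_nonneg (by positivity)] at h2
    have h3 : (δ : ℝ) ^ 3 ≤ (16 * Real.log (4 * X)) ^ 3 :=
      pow_le_pow_left₀ (Nat.cast_nonneg _) hd 3
    refine h3.trans ?_
    have h4 : (16 * Real.log (4 * (X : ℝ))) ^ 3 = 4096 * Real.log (4 * X) ^ 3 := by ring
    rw [h4]
    linarith
  · unfold W2
    refine Nat.floor_le_of_le ?_
    rw [div_le_iff₀ (by positivity)]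
    have := mul_le_mul_of_nonneg_right hd (show (0 : ℝ) ≤ X by linarith)
    linarith

theorem D2_le (X : ℕ) (hX : 2 ≤ X) : ((D2 X : ℕ) : ℝ) ≤ 16 * Real.log (4 * X) := by
  have hX' : (2 : ℝ) ≤ (X : ℝ) := by exact_mod_cast hX
  have hl2 := Real.log_two_gt_d9
  have h1 : ((2 : ℝ)) ^ Nat.log 2 (4 * X) ≤ 4 * X := by
    have := Nat.pow_log_le_self 2 (x := 4 * X) (by omega)
    exact_mod_cast this
  have h2 : (Nat.log 2 (4 * X) : ℝ) * Real.log 2 ≤ Real.log (4 * X) := by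
    rw [← Real.log_pow]
    exact Real.log_le_log (by positivity) h1
  have h3 : (2 : ℝ) ≤ Real.log (4 * X) := by
    have h4 : Real.log ((2 : ℝ) ^ 3) ≤ Real.log (4 * X) :=
      Real.log_le_log (by norm_num) (by norm_num; linarith)
    rw [Real.log_pow] at h4
    push_cast at h4
    linarith
  have h5 : ((D2 X : ℕ) : ℝ) = 4 * ((Nat.log 2 (4 * X) : ℝ) + 1) := by
    unfold D2
    push_cast
    ring
  rw [h5]
  have h6 : (0 : ℝ) ≤ (Nat.log 2 (4 * X) : ℝ) := Nat.cast_nonneg _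
  have h7 : (Nat.log 2 (4 * X) : ℝ) * (1 / 2) ≤ (Nat.log 2 (4 * X) : ℝ) * Real.log 2 :=
    mul_le_mul_of_nonneg_left (by linarith) h6
  nlinarith

/-- PROOF. `(X+1)/(w+1) ≤ (X+1) * 16 log(4X) / (δ X) ≤ 32 log(4X)/δ`, so the term of `δ` is at most
`(32 log(4X)/δ + 1) * δ * 8 log(4X) = 256 log(4X)^2 + 8 δ log (4X)`. Sum over `δ ≤ D2 X ≤ 16 log (4X)`, and
`log (4X) ≤ 3 log X` for `X ≥ 2`. -/
theorem asymp2 : ∃ C : ℝ, ∃ X0 : ℕ, 0 ≤ C ∧ ∀ X ≥ X0,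
    ∑ δ ∈ Finset.Icc 2 (D2 X),
      ((((X + 1) / (W2 δ X + 1) + 1) * (δ * ⌊8 * Real.log (4 * X)⌋₊) : ℕ) : ℝ)
      ≤ C * (Real.log X) ^ 3 := by
  refine ⟨165888, 2, by norm_num, ?_⟩
  intro X hX
  have hX' : (2 : ℝ) ≤ (X : ℝ) := by exact_mod_cast hX
  have hl2 := Real.log_two_gt_d9
  set L := Real.log (4 * X) with hL
  have hLpos : (2 : ℝ) ≤ L := by
    have h4 : Real.log ((2 : ℝ) ^ 3) ≤ Real.log (4 * X) :=
      Real.log_le_log (by norm_num) (by norm_num; linarith)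
    rw [Real.log_pow] at h4
    push_cast at h4
    linarith
  have hL3 : L ≤ 3 * Real.log X := by
    have h1 : Real.log (4 * X) = Real.log 4 + Real.log X :=
      Real.log_mul (by norm_num) (by linarith)
    have h2 : Real.log 4 = 2 * Real.log 2 := by
      rw [show (4 : ℝ) = 2 ^ 2 by norm_num, Real.log_pow]
      push_cast
      ring
    have h3 : Real.log 2 ≤ Real.log X := Real.log_le_log (by norm_num) hX'
    rw [hL, h1, h2]
    linarith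
  have hD := D2_le X hX
  rw [← hL] at hD
  have hterm : ∀ δ ∈ Finset.Icc 2 (D2 X),
      ((((X + 1) / (W2 δ X + 1) + 1) * (δ * ⌊8 * L⌋₊) : ℕ) : ℝ) ≤ 384 * L ^ 2 := by
    intro δ hδ
    rw [Finset.mem_Icc] at hδ
    have hδ2 : (2 : ℝ) ≤ (δ : ℝ) := by exact_mod_cast hδ.1
    have hδD : (δ : ℝ) ≤ 16 * L := by
      have : (δ : ℝ) ≤ (D2 X : ℝ) := by exact_mod_cast hδ.2
      linarith
    have hw : (δ * X : ℝ) / (16 * L) < (W2 δ X : ℝ) + 1 := by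
      unfold W2
      exact Nat.lt_floor_add_one _
    have hwpos : 0 < (δ * X : ℝ) / (16 * L) := by positivity
    have h1 : (((X + 1) / (W2 δ X + 1) : ℕ) : ℝ) ≤ 32 * L / δ := by
      have h2 : (((X + 1) / (W2 δ X + 1) : ℕ) : ℝ) ≤ ((X + 1 : ℕ) : ℝ) / ((W2 δ X + 1 : ℕ) : ℝ) :=
        Nat.cast_div_le
      refine h2.trans ?_
      push_cast
      have h3 : ((X : ℝ) + 1) / ((W2 δ X : ℝ) + 1) ≤ ((X : ℝ) + 1) / ((δ * X : ℝ) / (16 * L)) :=
        div_le_div_of_nonneg_left (by linarith) hwpos hw.le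
      refine h3.trans ?_
      rw [div_div_eq_mul_div, div_le_div_iff₀ (by positivity) (by linarith)]
      have h4 : ((X : ℝ) + 1) ≤ 2 * X := by linarith
      have h5 : 0 ≤ 16 * L * δ := by positivity
      nlinarith
    have h2 : (⌊8 * L⌋₊ : ℝ) ≤ 8 * L := Nat.floor_le (by linarith)
    push_cast
    have h3 : ((((X + 1) / (W2 δ X + 1) : ℕ) : ℝ) + 1) * (δ * (⌊8 * L⌋₊ : ℝ)) ≤
        (32 * L / δ + 1) * (δ * (8 * L)) := by
      apply mul_le_mul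
      · linarith
      · exact mul_le_mul_of_nonneg_left h2 (by linarith)
      · positivity
      · positivity
    have h4 : (32 * L / δ + 1) * (δ * (8 * L)) = 256 * L ^ 2 + 8 * δ * L := by
      field_simp
      ring
    rw [h4] at h3
    refine h3.trans ?_
    nlinarith
  have hcard : ((Finset.Icc 2 (D2 X)).card : ℝ) ≤ 16 * L := by
    rw [Nat.card_Icc]
    have : ((D2 X + 1 - 2 : ℕ) : ℝ) ≤ (D2 X : ℝ) := by
      exact_mod_cast (by omega : D2 X + 1 - 2 ≤ D2 X)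
    linarith
  calc ∑ δ ∈ Finset.Icc 2 (D2 X),
      ((((X + 1) / (W2 δ X + 1) + 1) * (δ * ⌊8 * L⌋₊) : ℕ) : ℝ)
      ≤ (Finset.Icc 2 (D2 X)).card • (384 * L ^ 2) := Finset.sum_le_card_nsmul _ _ _ hterm
    _ = ((Finset.Icc 2 (D2 X)).card : ℝ) * (384 * L ^ 2) := by rw [nsmul_eq_mul]
    _ ≤ (16 * L) * (384 * L ^ 2) := mul_le_mul_of_nonneg_right hcard (by positivity)
    _ = 6144 * L ^ 3 := by ring
    _ ≤ 6144 * (3 * Real.log X) ^ 3 := by
        have := pow_le_pow_left₀ (by linarith) hL3 3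
        linarith
    _ = 165888 * (Real.log X) ^ 3 := by ring

end Sur46
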