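import Pool.Agent.W_156d3b_h46.PDefs

namespace Sur46

open Nat

/-- PROOF. `K! = ∏ p^(v p)` over `p ∈ primesTo K` (support of the factorization is contained in it). Take logs. -/
theorem sum_wt (K : ℕ) : ∑ p ∈ primesTo K, wt K p = Real.log (K ! : ℕ) := by
  classical
  have hne : K ! ≠ 0 := Nat.factorial_ne_zero K
  have hsub : (K !).factorization.support ⊆ primesTo K := by
    intro p hp
    rw [Nat.support_factorization, Nat.mem_primeFactors] at hp
    rw [primesTo, Finset.mem_filter, Finset.mem_range]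
    refine ⟨?_, hp.1⟩
    have := (Nat.Prime.dvd_factorial hp.1).1 hp.2.1
    omega
  have h1 : ((K ! : ℕ) : ℝ) = ∏ p ∈ (K !).factorization.support, (p : ℝ) ^ ((K !).factorization p) := by
    have h2 := Nat.prod_factorization_pow_eq_self hne
    have h3 : ((K ! : ℕ) : ℝ) = (((K !).factorization.prod fun p k => p ^ k : ℕ) : ℝ) := by
      rw [h2]
    rw [h3, Finsupp.prod]
    push_cast
    rfl
  rw [h1, Real.log_prod]
  · symm
    have h4 : ∀ p ∈ (K !).factorization.support,
        Real.log ((p : ℝ) ^ ((K !).factorization p)) = wt K p := by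
      intro p _
      rw [Real.log_pow, wt]
    rw [Finset.sum_congr rfl h4]
    apply Finset.sum_subset hsub
    intro p _ hp
    rw [Finsupp.notMem_support_iff] at hp
    rw [wt, hp]
    simp
  · intro p hp
    rw [Nat.support_factorization, Nat.mem_primeFactors] at hp
    have : (p : ℝ) ≠ 0 := by exact_mod_cast hp.1.ne_zero
    exact pow_ne_zero _ this

/-- PROOF. `v_2(K!) = K - (binary digit sum) ≥ K - log_2 K - 1` (`sub_one_mul_padicValNat_factorial`, or
`v_2(K!) ≥ ⌊K/2⌋ + ⌊K/4⌋ ≥ 3K/4 - 2`) and `log 2 > 0.693`: `0.693 (3K/4 - 2) ≥ K/2` for large `K`. -/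
theorem wt_two : ∃ K0 : ℕ, ∀ K ≥ K0, (K : ℝ) / 2 ≤ wt K 2 := by
  -- (2 m)! = 2^m * m! * odd: v2((2m)!) = m + v2(m!)
  have hstep : ∀ m : ℕ, m + (m !).factorization 2 ≤ ((2 * m)!).factorization 2 := by
    intro m
    have h1 : 2 ^ m * m ! ∣ (2 * m)! := by
      induction m with
      | zero => simp
      | succ n ih =>
        have e1 : (2 * (n + 1))! = (2 * n + 2) * ((2 * n + 1) * (2 * n)!) := by
          rw [show 2 * (n + 1) = (2 * n + 1) + 1 by ring, Nat.factorial_succ, Nat.factorial_succ]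
        have e2 : 2 ^ (n + 1) * (n + 1)! = (2 * n + 2) * (2 ^ n * n !) := by
          rw [Nat.factorial_succ]; ring
        rw [e1, e2]
        exact Nat.mul_dvd_mul_left _ (Dvd.dvd.mul_left ih _)
    have h2 := (Nat.factorization_le_iff_dvd (by positivity) (Nat.factorial_ne_zero _)).2 h1
    have h3 := h2 2
    rw [Nat.factorization_mul (by positivity) (Nat.factorial_ne_zero _), Finsupp.add_apply,
      Nat.factorization_pow, Finsupp.smul_apply, Nat.Prime.factorization_self Nat.prime_two] at h3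
    simpa using h3
  have hmono : ∀ a b : ℕ, a ≤ b → (a !).factorization 2 ≤ (b !).factorization 2 := by
    intro a b hab
    exact (Nat.factorization_le_iff_dvd (Nat.factorial_ne_zero _) (Nat.factorial_ne_zero _)).2
      (Nat.factorial_dvd_factorial hab) 2
  refine ⟨200, fun K hK => ?_⟩
  have h1 := hstep (K / 2)
  have h2 := hstep (K / 2 / 2)
  have h3 := hstep (K / 2 / 2 / 2)
  have m1 := hmono (2 * (K / 2)) K (by omega)
  have m2 := hmono (2 * (K / 2 / 2)) (K / 2) (by omega)
  have m3 := hmono (2 * (K / 2 / 2 / 2)) (K / 2 / 2) (by omega)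
  have hv : K / 2 + K / 2 / 2 + K / 2 / 2 / 2 ≤ (K !).factorization 2 := by omega
  have hv' : 7 * K ≤ 8 * (K !).factorization 2 + 24 := by omega
  have hv'' : 7 * (K : ℝ) ≤ 8 * ((K !).factorization 2 : ℝ) + 24 := by exact_mod_cast hv'
  have hK' : (200 : ℝ) ≤ K := by exact_mod_cast hK
  have hl := Real.log_two_gt_d9
  have hnn : (0 : ℝ) ≤ ((K !).factorization 2 : ℝ) := Nat.cast_nonneg _
  rw [wt]
  have h5 : ((K !).factorization 2 : ℝ) * 0.69 ≤ ((K !).factorization 2 : ℝ) * Real.log (2 : ℕ) := by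
    apply mul_le_mul_of_nonneg_left _ hnn
    push_cast
    linarith
  linarith

end Sur46
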