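import Pool.Agent.W_156d3b_h46.PDefs
import Pool.Agent.W_156d3b_h46.DBound2
import Pool.Agent.W_156d3b_h46.Pair
import Pool.Agent.W_156d3b_h46.Plotkin
import Pool.Agent.W_156d3b_h46.Weights
import Pool.Agent.W_156d3b_h46.Small2
import Pool.Agent.W_156d3b_h46.Padic
import Pool.Agent.W_156d3b_h46.Sizes

namespace Sur46

open Nat

theorem wt_nonneg (K p : ℕ) : 0 ≤ wt K p := by
  unfold wt
  apply mul_nonneg (by positivity)
  exact Real.log_natCast_nonneg p

theorem log_fact_le {K w : ℕ} (hK : 1 ≤ K) :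
    Real.log ((K + w)! : ℕ) ≤ Real.log (K ! : ℕ) + w * Real.log ((K + w : ℕ) : ℝ) := by
  have h1 : (K + w)! ≤ K ! * (K + w) ^ w := by
    rw [← Nat.factorial_mul_ascFactorial]
    exact Nat.mul_le_mul_left _ (Nat.ascFactorial_le_pow_add K w)
  have hpos : (0:ℝ) < ((K + w)! : ℕ) := by exact_mod_cast Nat.factorial_pos _
  have hposK : (0:ℝ) < (K ! : ℕ) := by exact_mod_cast Nat.factorial_pos _
  have hKw : (0:ℝ) < ((K + w : ℕ) : ℝ) := by exact_mod_cast (by omega : 0 < K + w)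
  calc Real.log ((K + w)! : ℕ) ≤ Real.log ((K ! * (K + w) ^ w : ℕ) : ℝ) :=
        Real.log_le_log hpos (by exact_mod_cast h1)
    _ = Real.log (K ! : ℕ) + w * Real.log ((K + w : ℕ) : ℝ) := by
        push_cast
        rw [Real.log_mul (by positivity) (by positivity), Real.log_pow]

theorem log_fact_le_mul (K : ℕ) (hK : 1 ≤ K) : Real.log (K ! : ℕ) ≤ K * Real.log K := by
  have h1 : K ! ≤ K ^ K := Nat.factorial_le_pow K
  have hpos : (0:ℝ) < (K ! : ℕ) := by exact_mod_cast Nat.factorial_pos _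
  have hKpos : (0:ℝ) < (K : ℝ) := by exact_mod_cast hK
  calc Real.log (K ! : ℕ) ≤ Real.log ((K ^ K : ℕ) : ℝ) := Real.log_le_log hpos (by exact_mod_cast h1)
    _ = K * Real.log K := by push_cast; rw [Real.log_pow]

/-- the core estimate: one window, one `δ`, one value of the index of the prime 2 -/
theorem window_core : ∃ X0 : ℕ, 2 ≤ X0 ∧ ∀ X ≥ X0, ∀ K, X ≤ K → K ≤ 3 * X → ∀ δ, 2 ≤ δ → δ ≤ D2 X →
    ∀ (S : Finset ℕ) (m : ℕ → ℕ) (i : ℕ → ℕ → ℕ), S ⊆ Finset.Icc K (K + W2 δ X) →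
    (∀ k ∈ S, Sol k (m k) δ) →
    (∀ p, p.Prime → ∀ k ∈ S, 1 ≤ i p k ∧ i p k ≤ δ ∧
      ∀ e, p ^ e ∣ k ! → p ^ e ∣ (m k + i p k) * ((δ - 1)!) ^ (δ - 1)) →
    (∀ k ∈ S, ∀ k' ∈ S, i 2 k = i 2 k') →
    S.card ≤ ⌊8 * Real.log (4 * X)⌋₊ := by
  obtain ⟨X1, hX12, h1⟩ := small2
  obtain ⟨K2, h2⟩ := wt_two
  refine ⟨max X1 K2, le_trans hX12 (le_max_left _ _), ?_⟩
  intro X hX K hXK hK3 δ hδ2 hδD S m i hS hsol hi hagree
  have hX1 : X1 ≤ X := le_trans (le_max_left _ _) hX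
  have hK2 : K2 ≤ K := le_trans (le_trans (le_max_right _ _) hX) hXK
  have hX2 : 2 ≤ X := le_trans hX12 hX1
  obtain ⟨hE, hW⟩ := h1 X hX1 δ hδD
  have hw2 := h2 K hK2
  have hXpos : (0:ℝ) < X := by exact_mod_cast (by omega : 0 < X)
  have hKpos : (0:ℝ) < K := by exact_mod_cast (by omega : 0 < K)
  have hδpos : (0:ℝ) < δ := by exact_mod_cast (by omega : 0 < δ)
  have hδ2' : (2:ℝ) ≤ δ := by exact_mod_cast hδ2
  have hXK' : (X:ℝ) ≤ K := by exact_mod_cast hXK
  have hXge : (2:ℝ) ≤ X := by exact_mod_cast hX2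
  have hlog1 : (1:ℝ) ≤ Real.log (4 * X) := by
    rw [Real.le_log_iff_exp_le (by positivity)]
    have := Real.exp_one_lt_d9
    linarith
  set E := ((δ - 1)!) ^ (δ - 1) with hEdef
  have hEpos : 0 < E := pow_pos (Nat.factorial_pos _) _
  set T := Real.log (K ! : ℕ) with hT
  have hTnn : 0 ≤ T := Real.log_natCast_nonneg _
  -- the window term
  have hWlog : (W2 δ X : ℝ) * Real.log (4 * X) ≤ δ * X / 16 := by
    have h3 : (W2 δ X : ℝ) ≤ (δ * X : ℝ) / (16 * Real.log (4 * X)) := by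
      unfold W2
      exact Nat.floor_le (by positivity)
    calc (W2 δ X : ℝ) * Real.log (4 * X)
        ≤ (δ * X : ℝ) / (16 * Real.log (4 * X)) * Real.log (4 * X) :=
          mul_le_mul_of_nonneg_right h3 (by linarith)
      _ = δ * X / 16 := by
          have hne : Real.log (4 * (X:ℝ)) ≠ 0 := by linarith
          generalize Real.log (4 * (X:ℝ)) = L at hne
          field_simp
  have hKW : Real.log ((K + W2 δ X : ℕ) : ℝ) ≤ Real.log (4 * X) := by
    apply Real.log_le_log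
    · exact_mod_cast (by omega : 0 < K + W2 δ X)
    · have : K + W2 δ X ≤ 4 * X := by omega
      exact_mod_cast this
  have hmlog : ∀ k ∈ S, Real.log (m k) ≤ T / δ + X / 16 := by
    intro k hk
    have hs := hsol k hk
    have hI := Finset.mem_Icc.1 (hS hk)
    have h4 := hs.pow_le
    have h5 : (m k) ^ δ ≤ k ! := le_trans (Nat.pow_le_pow_left (by omega) δ) h4
    have h6 : (m k) ^ δ ≤ (K + W2 δ X)! := le_trans h5 (Nat.factorial_le hI.2)
    have hmpos : 0 < m k := by unfold Sol at hs; omega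
    have h7 : (δ : ℝ) * Real.log (m k) ≤ Real.log ((K + W2 δ X)! : ℕ) := by
      rw [← Real.log_pow]
      apply Real.log_le_log
      · have : 0 < (m k) ^ δ := pow_pos hmpos _
        exact_mod_cast this
      · exact_mod_cast h6
    have h8 := log_fact_le (K := K) (w := W2 δ X) (by omega)
    have h9 : (W2 δ X : ℝ) * Real.log ((K + W2 δ X : ℕ) : ℝ) ≤ δ * X / 16 :=
      le_trans (mul_le_mul_of_nonneg_left hKW (by positivity)) hWlog
    have h10 : (δ : ℝ) * Real.log (m k) ≤ T + δ * X / 16 := by linarith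
    have h11 : Real.log (m k) ≤ (T + δ * X / 16) / δ := by
      rw [le_div_iff₀ hδpos]; linarith
    calc Real.log (m k) ≤ (T + δ * X / 16) / δ := h11
      _ = T / δ + X / 16 := by field_simp
  have hdvd : ∀ k ∈ S, ∀ p, p.Prime → ∀ e, p ^ e ∣ K ! → p ^ e ∣ (m k + i p k) * E := by
    intro k hk p hp e he
    have hI := Finset.mem_Icc.1 (hS hk)
    exact (hi p hp k hk).2.2 e (dvd_trans he (Nat.factorial_dvd_factorial hI.1))
  have hpair : ∀ k ∈ S, ∀ k' ∈ S, k < k' →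
      ∑ p ∈ (primesTo K).filter (fun p => i p k = i p k'), wt K p ≤ T / δ + X / 8 := by
    intro k hk k' hk' hlt
    have h3 := pair_le hEpos (Sol.m_lt (hsol k hk) (hsol k' hk') hlt)
      (fun p => i p k) (fun p => i p k') (hdvd k hk) (hdvd k' hk')
    have h4 := hmlog k' hk'
    have h5 : Real.log (E : ℝ) ≤ X / 16 := hE
    calc _ ≤ Real.log (m k') + Real.log (E : ℝ) := h3
      _ ≤ T / δ + X / 8 := by linarith
  have h2mem : 2 ∈ primesTo K := by
    simp only [primesTo, Finset.mem_filter, Finset.mem_range]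
    exact ⟨by omega, Nat.prime_two⟩
  have hpl := plotkin (primesTo K) S i δ (by omega) (wt K) (fun p _ => wt_nonneg K p)
    (by
      intro p hp k hk
      have hpp : p.Prime := by
        simp only [primesTo, Finset.mem_filter] at hp
        exact hp.2
      exact ⟨(hi p hpp k hk).1, (hi p hpp k hk).2.1⟩)
    2 h2mem hagree (T / δ + X / 8)
    (by
      intro k hk k' hk' hne
      rcases Nat.lt_or_gt_of_ne hne with h | h
      · exact hpair k hk k' hk' h
      · have h3 := hpair k' hk' k hk h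
        have : (primesTo K).filter (fun p => i p k = i p k') =
            (primesTo K).filter (fun p => i p k' = i p k) := by
          ext p
          simp only [Finset.mem_filter]
          constructor <;> rintro ⟨a, b⟩ <;> exact ⟨a, b.symm⟩
        rw [this]
        exact h3)
  rw [sum_wt, ← hT] at hpl
  set N : ℝ := (S.card : ℝ) with hN
  have hNnn : 0 ≤ N := by positivity
  have h12 : N ^ 2 / δ * T = N ^ 2 * (T / δ) := by ring
  rw [h12] at hpl
  have hTδ : 0 ≤ T / δ := by positivity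
  have hinv : (1:ℝ) / δ ≤ 1 / 2 := one_div_le_one_div_of_le (by norm_num) hδ2'
  have h13 : (K:ℝ) / 4 ≤ (1 - 1 / (δ:ℝ)) * wt K 2 := by
    have : (1/2 : ℝ) * (K / 2) ≤ (1 - 1 / (δ:ℝ)) * wt K 2 := by
      apply mul_le_mul _ hw2 (by positivity) (by linarith)
      linarith
    linarith
  have h14 : N ^ 2 * ((K:ℝ) / 4) ≤ N ^ 2 * ((1 - 1 / (δ:ℝ)) * wt K 2) :=
    mul_le_mul_of_nonneg_left h13 (by positivity)
  have h15 : N ^ 2 * ((K:ℝ) / 8) ≤ N * T := by
    have h16 : 0 ≤ N * (T / δ + X / 8) := by positivity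
    have h17 : N ^ 2 * ((X:ℝ) / 8) ≤ N ^ 2 * ((K:ℝ) / 8) := by
      apply mul_le_mul_of_nonneg_left _ (by positivity); linarith
    nlinarith
  have hTK := log_fact_le_mul K (by omega)
  rw [← hT] at hTK
  have hlogK : Real.log K ≤ Real.log (4 * X) := by
    apply Real.log_le_log hKpos
    have : (K:ℝ) ≤ 3 * X := by exact_mod_cast hK3
    linarith
  apply Nat.le_floor
  rw [← hN]
  rcases eq_or_lt_of_le hNnn with h | h
  · rw [← h]; positivity
  · have h18 : N * ((K:ℝ) / 8) ≤ T := by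
      have : N * (N * ((K:ℝ) / 8)) ≤ N * T := by nlinarith
      exact le_of_mul_le_mul_left this h
    have h19 : N * ((K:ℝ) / 8) ≤ K * Real.log (4 * X) := by
      calc N * ((K:ℝ) / 8) ≤ T := h18
        _ ≤ K * Real.log K := hTK
        _ ≤ K * Real.log (4 * X) := mul_le_mul_of_nonneg_left hlogK hKpos.le
    have h20 : (K:ℝ) * N ≤ K * (8 * Real.log (4 * X)) := by nlinarith
    exact le_of_mul_le_mul_left h20 hKpos

/-- one window, one `δ` -/
theorem windowP : ∃ X0 : ℕ, 2 ≤ X0 ∧ ∀ X ≥ X0, ∀ K, X ≤ K → K ≤ 3 * X → ∀ δ, 2 ≤ δ → δ ≤ D2 X →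
    ∀ S : Finset ℕ, S ⊆ Finset.Icc K (K + W2 δ X) → (∀ k ∈ S, ∃ m, Sol k m δ) →
    S.card ≤ δ * ⌊8 * Real.log (4 * X)⌋₊ := by
  obtain ⟨X0, hX02, h⟩ := window_core
  refine ⟨X0, hX02, ?_⟩
  intro X hX K hXK hK3 δ hδ2 hδD S hS hm
  have hex : ∀ k, ∃ m, k ∈ S → Sol k m δ := by
    intro k
    by_cases hk : k ∈ S
    · obtain ⟨m, hm⟩ := hm k hk
      exact ⟨m, fun _ => hm⟩
    · exact ⟨0, fun h => absurd h hk⟩
  choose m hm' using hex
  have hexi : ∀ p k, ∃ i, (p.Prime → k ∈ S → (1 ≤ i ∧ i ≤ δ ∧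
      ∀ e, p ^ e ∣ k ! → p ^ e ∣ (m k + i) * ((δ - 1)!) ^ (δ - 1))) := by
    intro p k
    by_cases hp : p.Prime
    · by_cases hk : k ∈ S
      · obtain ⟨i, hi⟩ := Sol.padic (hm' k hk) hp
        exact ⟨i, fun _ _ => hi⟩
      · exact ⟨0, fun _ h => absurd h hk⟩
    · exact ⟨0, fun h => absurd h hp⟩
  choose i hi using hexi
  have hmain := Finset.card_le_mul_card_image_of_maps_to (f := i 2) (s := S)
    (t := Finset.Icc 1 δ)
    (by
      intro k hk
      have := hi 2 k Nat.prime_two hk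
      exact Finset.mem_Icc.2 ⟨this.1, this.2.1⟩) (⌊8 * Real.log (4 * X)⌋₊)
    (by
      intro c _
      apply h X hX K hXK hK3 δ hδ2 hδD (S.filter (fun k => i 2 k = c)) m i
      · exact (Finset.filter_subset _ _).trans hS
      · intro k hk; exact hm' k (Finset.mem_filter.1 hk).1
      · intro p hp k hk; exact hi p k hp (Finset.mem_filter.1 hk).1
      · intro k hk k' hk'
        rw [(Finset.mem_filter.1 hk).2, (Finset.mem_filter.1 hk').2])
  calc S.card ≤ ⌊8 * Real.log (4 * X)⌋₊ * (Finset.Icc 1 δ).card := hmain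
    _ = δ * ⌊8 * Real.log (4 * X)⌋₊ := by rw [Nat.card_Icc]; simp [mul_comm]

end Sur46
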