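import Pool.Agent.W_156d3b_h46.Core
import Pool.Agent.W_156d3b_h46.DBound
import Pool.Agent.W_156d3b_h46.Fiber
import Pool.Agent.W_156d3b_h46.Sizes

namespace Sur46

open Nat

theorem W_le {X : ℕ} (hX : 1 ≤ X) : W X ≤ X := by
  unfold W
  apply Nat.floor_le_of_le
  have h1 : (1:ℝ) ≤ X := by exact_mod_cast hX
  have h4 : (1:ℝ) ≤ Real.log (4 * X) := by
    rw [Real.le_log_iff_exp_le (by positivity)]
    have := Real.exp_one_lt_d9
    linarith
  rw [div_le_iff₀ (by linarith)]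
  nlinarith

theorem d_le_DD {X K k d m K0 : ℕ} (hX : 1 ≤ X) (hK0 : K0 ≤ X) (hXK : X ≤ K) (hK3 : K ≤ 3 * X)
    (h0 : ∀ k ≥ K0, ∀ m d : ℕ, Sol k m d → d ≤ 4 * (Nat.log 2 k) ^ 2)
    (hk1 : K ≤ k) (hk2 : k ≤ K + W X) (h : Sol k m d) : d ≤ DD X := by
  have h1 := h0 k (by omega) m d h
  have h2 : Nat.log 2 k ≤ Nat.log 2 (4 * X) := by
    apply Nat.log_mono_right
    have := W_le hX
    omega
  unfold DD
  have h3 : (Nat.log 2 k) ^ 2 ≤ (Nat.log 2 (4 * X)) ^ 2 := Nat.pow_le_pow_left h2 2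
  omega

/-- windows, `d = r` -/
theorem windowA (r : ℕ) (hr : 2 ≤ r) : ∃ X0 : ℕ, ∀ X ≥ X0, ∀ K, X ≤ K → K ≤ 3 * X →
    ∀ S : Finset ℕ, S ⊆ Finset.Icc K (K + W X) → (∀ k ∈ S, ∃ m, Sol k m r) →
    S.card ≤ 12 * r * (primesTo (Y r X)).card := by
  obtain ⟨X1, h1⟩ := core r hr
  obtain ⟨K0, h0⟩ := d_bound
  refine ⟨max (max X1 K0) 2, ?_⟩
  intro X hX K hXK hK3 S hS hm
  have hX1 : X1 ≤ X := le_trans (le_trans (le_max_left _ _) (le_max_left _ _)) hX
  have hK0 : K0 ≤ X := le_trans (le_trans (le_max_right _ _) (le_max_left _ _)) hX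
  have hX2 : 2 ≤ X := le_trans (le_max_right _ _) hX
  have hex : ∀ k, ∃ m, k ∈ S → Sol k m r := by
    intro k
    by_cases hk : k ∈ S
    · obtain ⟨m, h⟩ := hm k hk
      exact ⟨m, fun _ => h⟩
    · exact ⟨0, fun h => absurd h hk⟩
  choose m hm' using hex
  have hG2 : 2 ≤ X ^ 2 := by nlinarith
  have hGK : 2 * X ^ 2 ≤ K ^ 3 := by
    have : X ^ 3 ≤ K ^ 3 := Nat.pow_le_pow_left hXK 3
    nlinarith [sq_nonneg X]
  have hfib : ∀ v, (S.filter (fun k => Nat.log (X ^ 2) (m k) = v)).card ≤ 3 * r := by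
    intro v
    apply fiber_card hG2 hGK S m _ v
    intro k hk
    exact ⟨(Finset.mem_Icc.1 (hS hk)).1, hm' k hk⟩
  obtain ⟨T, hTS, hlac, hcard⟩ := exists_lacunary hG2 S m
    (fun k hk => by have := hm' k hk; unfold Sol at this; omega) hfib
  have hlt := h1 X hX1 K hXK hK3 T m (fun _ => r)
    (by
      intro k hk
      have hkS := hTS hk
      have hI := Finset.mem_Icc.1 (hS hkS)
      have hsol := hm' k hkS
      refine ⟨hI.1, hI.2, hsol, ?_, ?_⟩
      · exact d_le_DD (by omega) hK0 hXK hK3 h0 hI.1 hI.2 hsol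
      · exact le_trans (Nat.pow_le_pow_left (by omega) r) hsol.pow_le) hlac
  calc S.card ≤ 2 * (3 * r) * T.card := hcard
    _ ≤ 2 * (3 * r) * (2 * (primesTo (Y r X)).card) := Nat.mul_le_mul_left _ hlt.le
    _ = 12 * r * (primesTo (Y r X)).card := by ring

/-- windows, `d ≥ r` (to be used with `r + 1`) -/
theorem windowB (r : ℕ) (hr : 2 ≤ r) : ∃ X0 : ℕ, ∀ X ≥ X0, ∀ K, X ≤ K → K ≤ 3 * X →
    ∀ S : Finset ℕ, S ⊆ Finset.Icc K (K + W X) → (∀ k ∈ S, ∃ m d, r ≤ d ∧ Sol k m d) →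
    S.card ≤ 12 * (DD X) ^ 2 * (primesTo (Y r X)).card := by
  obtain ⟨X1, h1⟩ := core r hr
  obtain ⟨K0, h0⟩ := d_bound
  refine ⟨max (max X1 K0) 2, ?_⟩
  intro X hX K hXK hK3 S hS hm
  have hX1 : X1 ≤ X := le_trans (le_trans (le_max_left _ _) (le_max_left _ _)) hX
  have hK0 : K0 ≤ X := le_trans (le_trans (le_max_right _ _) (le_max_left _ _)) hX
  have hX2 : 2 ≤ X := le_trans (le_max_right _ _) hX
  have hex : ∀ k, ∃ m d, k ∈ S → (r ≤ d ∧ Sol k m d) := by
    intro k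
    by_cases hk : k ∈ S
    · obtain ⟨m, d, h⟩ := hm k hk
      exact ⟨m, d, fun _ => h⟩
    · exact ⟨0, 0, fun h => absurd h hk⟩
  choose m d hm' using hex
  have hG2 : 2 ≤ X ^ 2 := by nlinarith
  have hGK : 2 * X ^ 2 ≤ K ^ 3 := by
    have : X ^ 3 ≤ K ^ 3 := Nat.pow_le_pow_left hXK 3
    nlinarith [sq_nonneg X]
  have hdD : ∀ k ∈ S, d k ≤ DD X := by
    intro k hk
    have hI := Finset.mem_Icc.1 (hS hk)
    exact d_le_DD (by omega) hK0 hXK hK3 h0 hI.1 hI.2 (hm' k hk).2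
  have hfib : ∀ v, (S.filter (fun k => Nat.log (X ^ 2) (m k) = v)).card ≤ 3 * (DD X) ^ 2 := by
    intro v
    have hsub : ∀ k ∈ S.filter (fun k => Nat.log (X ^ 2) (m k) = v), d k ∈ Finset.Icc 1 (DD X) := by
      intro k hk
      have hkS := (Finset.mem_filter.1 hk).1
      exact Finset.mem_Icc.2 ⟨((hm' k hkS).2.d_pos_lt).1, hdD k hkS⟩
    have hmain := Finset.card_le_mul_card_image_of_maps_to (f := d)
      (s := S.filter (fun k => Nat.log (X ^ 2) (m k) = v)) (t := Finset.Icc 1 (DD X)) hsub (3 * DD X)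
      (by
        intro δ hδ
        have hδ' := Finset.mem_Icc.1 hδ
        have h3 := fiber_card (δ := δ) hG2 hGK (S.filter (fun k => d k = δ)) m
          (by
            intro k hk
            obtain ⟨hkS, hkd⟩ := Finset.mem_filter.1 hk
            refine ⟨(Finset.mem_Icc.1 (hS hkS)).1, ?_⟩
            have := (hm' k hkS).2
            rw [hkd] at this
            exact this) v
        rw [Finset.filter_filter] at h3 ⊢
        have heq : (S.filter (fun k => Nat.log (X ^ 2) (m k) = v ∧ d k = δ)).card =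
            (S.filter (fun k => d k = δ ∧ Nat.log (X ^ 2) (m k) = v)).card := by
          congr 1
          ext k
          simp only [Finset.mem_filter]
          tauto
        rw [heq]
        exact le_trans h3 (Nat.mul_le_mul_left _ hδ'.2))
    calc _ ≤ 3 * DD X * (Finset.Icc 1 (DD X)).card := hmain
      _ = 3 * (DD X) ^ 2 := by rw [Nat.card_Icc]; simp; ring
  obtain ⟨T, hTS, hlac, hcard⟩ := exists_lacunary hG2 S m
    (fun k hk => by have := (hm' k hk).2; unfold Sol at this; omega) hfib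
  have hlt := h1 X hX1 K hXK hK3 T m d
    (by
      intro k hk
      have hkS := hTS hk
      have hI := Finset.mem_Icc.1 (hS hkS)
      obtain ⟨hrd, hsol⟩ := hm' k hkS
      refine ⟨hI.1, hI.2, hsol, hdD k hkS, ?_⟩
      calc (m k) ^ r ≤ (m k + 1) ^ r := Nat.pow_le_pow_left (by omega) r
        _ ≤ (m k + 1) ^ (d k) := Nat.pow_le_pow_right (by omega) hrd
        _ ≤ k ! := hsol.pow_le) hlac
  calc S.card ≤ 2 * (3 * (DD X) ^ 2) * T.card := hcard
    _ ≤ 2 * (3 * (DD X) ^ 2) * (2 * (primesTo (Y r X)).card) := Nat.mul_le_mul_left _ hlt.le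
    _ = 12 * (DD X) ^ 2 * (primesTo (Y r X)).card := by ring

end Sur46
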